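import Pool.Agent.Helper18.EH.K4.Hit

/-!
Classification of block words, and the hitting property.
-/

namespace Pool.Agent.Helper18.EH

/-- Sequences of piece numbers with directions. -/
def UG : ℕ → ℕ → Bool → List (List (ℕ × Bool))
  | 0, p, d => [[(p, d)]]
  | r + 1, p, d => (UG r p d ++ UG r (p + 1) true ++ UG r (p + 1) false).map ((p, d) :: ·)

/-- The piece numbers increase and the direction depends on the piece only. -/
def OkP (pd : List (ℕ × Bool)) : Prop :=
  pd.Pairwise fun a b => a.1 ≤ b.1 ∧ (a.1 = b.1 → a.2 = b.2)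

instance (pd : List (ℕ × Bool)) : Decidable (OkP pd) := by unfold OkP; infer_instance

/-- The place of the member `t` among `m` members in a piece. -/
def vl (m t : ℕ) (q : ℕ × Bool) : ℕ := m * q.1 + (if q.2 then t else m - 1 - t)

/-- The member `t` of a family of `m` members. -/
def ul (m t : ℕ) : ℕ → List (ℕ × Bool) → List ℕ
  | i, q :: l => (4 * vl m t q + i) :: ul m t (i + 1) l
  | _, [] => []

theorem ul_length {m t : ℕ} : ∀ {i : ℕ} {pd : List (ℕ × Bool)}, (ul m t i pd).length = pd.length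
  | _, [] => rfl
  | i, q :: l => by simp only [ul, List.length_cons, ul_length (i := i + 1) (pd := l)]

theorem ul_getElem {m t : ℕ} : ∀ {i0 : ℕ} {pd : List (ℕ × Bool)} {i : ℕ}
    (h : i < (ul m t i0 pd).length) (h' : i < pd.length),
    (ul m t i0 pd)[i] = 4 * vl m t pd[i] + (i0 + i)
  | i0, q :: l, 0, _, _ => by simp [ul]
  | i0, q :: l, i + 1, h, h' => by
    simp only [ul, List.getElem_cons_succ]
    rw [ul_getElem (by simpa [ul] using h) (by simpa using h')]
    ring
  | _, [], _, _, h' => by simp at h'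

theorem vl_lt {m s t : ℕ} (hs : s < m) (_ : t < m) {q q' : ℕ × Bool} (h : q.1 < q'.1) :
    vl m s q < vl m t q' := by
  unfold vl
  have h1 : m * (q.1 + 1) ≤ m * q'.1 := Nat.mul_le_mul_left m h
  rw [mul_add, mul_one] at h1
  have h2 : (if q.2 then s else m - 1 - s) < m := by split_ifs <;> omega
  omega

theorem vl_same {m s t : ℕ} (hst : s < t) (ht : t < m) {q q' : ℕ × Bool} (h : q.1 = q'.1)
    (h' : q.2 = q'.2) : (vl m s q < vl m t q' ↔ q.2 = true) ∧
      (vl m t q' < vl m s q ↔ q.2 = false) := by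
  unfold vl
  rw [h, ← h']
  cases q.2 <;> simp <;> omega

theorem ul_sd {m t : ℕ} (ht : t < m) {i0 : ℕ} {pd : List (ℕ × Bool)} (hok : OkP pd) : Sd (ul m t i0 pd) := by
  rw [Sd, List.pairwise_iff_getElem]
  intro i j hi hj hij
  have hi' : i < pd.length := by rwa [ul_length] at hi
  have hj' : j < pd.length := by rwa [ul_length] at hj
  rw [ul_getElem hi hi', ul_getElem hj hj']
  obtain ⟨h1, h2⟩ := List.pairwise_iff_getElem.1 hok i j hi' hj' hij
  rcases Nat.lt_or_eq_of_le h1 with h3 | h3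
  · have := vl_lt ht ht h3
    omega
  · have h4 : vl m t pd[i] = vl m t pd[j] := by unfold vl; rw [h3, h2 h3]
    omega

theorem OkP.compare {pd : List (ℕ × Bool)} (hok : OkP pd) {i j : ℕ} (hi : i < pd.length)
    (hj : j < pd.length) : pd[i].1 < pd[j].1 ∨ pd[j].1 < pd[i].1 ∨
      (pd[i].1 = pd[j].1 ∧ pd[i].2 = pd[j].2) := by
  rcases lt_trichotomy pd[i].1 pd[j].1 with h | h | h
  · exact Or.inl h
  · right; right
    refine ⟨h, ?_⟩
    rcases lt_trichotomy i j with h1 | h1 | h1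
    · exact (List.pairwise_iff_getElem.1 hok i j hi hj h1).2 h
    · subst h1; rfl
    · exact ((List.pairwise_iff_getElem.1 hok j i hj hi h1).2 h.symm).symm
  · exact Or.inr (Or.inl h)

theorem ul_OE {m s t : ℕ} (hst : s < t) (ht : t < m) {pd : List (ℕ × Bool)} (hok : OkP pd)
    (hl : pd.length ≤ 4) : OE (ul m s 0 pd) (ul m t 0 pd) (ul 2 0 0 pd) (ul 2 1 0 pd) := by
  refine ⟨by rw [ul_length, ul_length], by rw [ul_length, ul_length], ?_⟩
  intro i j hi hj hi' hj'
  have i1 : i < pd.length := by rwa [ul_length] at hi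
  have j1 : j < pd.length := by rwa [ul_length] at hj
  rw [ul_getElem hi i1, ul_getElem hj j1, ul_getElem hi' i1, ul_getElem hj' j1]
  rw [zero_add, zero_add]
  rw [mul_add_lt_iff (by omega) (by omega), mul_add_lt_iff (by omega) (by omega),
    mul_add_lt_iff (by omega) (by omega), mul_add_lt_iff (by omega) (by omega)]
  rcases hok.compare i1 j1 with h | h | ⟨h, h'⟩
  · have h1 := vl_lt (hst.trans ht) ht h
    have h2 := vl_lt (m := 2) (s := 0) (t := 1) (by omega) (by omega) h
    constructor <;> constructor <;> rintro (h3 | ⟨h3, _⟩) <;> (left; omega)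
  · have h1 := vl_lt ht (hst.trans ht) h
    have h2 := vl_lt (m := 2) (s := 1) (t := 0) (by omega) (by omega) h
    constructor <;> constructor <;> rintro (h3 | ⟨h3, _⟩) <;> (left; omega)
  · have h1 := vl_same hst ht h h'
    have h2 := vl_same (m := 2) (s := 0) (t := 1) (by omega) (by omega) h h'
    have h5 : vl m s pd[i] ≠ vl m t pd[j] := by
      intro h6
      have h7 := h1.1
      have h8 := h1.2
      rw [h6] at h7 h8
      simp at h7 h8
      rw [h7] at h8
      exact absurd h8 (by simp)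
    have h6 : vl 2 0 pd[i] ≠ vl 2 1 pd[j] := by
      intro h6
      have h7 := h2.1
      have h8 := h2.2
      rw [h6] at h7 h8
      simp at h7 h8
      rw [h7] at h8
      exact absurd h8 (by simp)
    rw [h1.1, h1.2, h2.1, h2.2]
    constructor <;> constructor <;> rintro (h3 | ⟨h3, _⟩) <;>
      first | exact Or.inl h3 | exact absurd h3 h5 | exact absurd h3 h6 | exact absurd h3.symm h5 | exact absurd h3.symm h6

theorem ul_ne {m s t : ℕ} (hst : s < t) (ht : t < m) {pd : List (ℕ × Bool)} (hok : OkP pd)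
    (hl : pd.length ≤ 4) {x y : ℕ} (hx : x ∈ ul m s 0 pd) (hy : y ∈ ul m t 0 pd) : x ≠ y := by
  obtain ⟨i, hi, rfl⟩ := List.mem_iff_getElem.1 hx
  obtain ⟨j, hj, rfl⟩ := List.mem_iff_getElem.1 hy
  have i1 : i < pd.length := by rwa [ul_length] at hi
  have j1 : j < pd.length := by rwa [ul_length] at hj
  rw [ul_getElem hi i1, ul_getElem hj j1]
  rcases hok.compare i1 j1 with h | h | ⟨h, h'⟩
  · have h1 := vl_lt (hst.trans ht) ht h
    omega
  · have h1 := vl_lt ht (hst.trans ht) h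
    omega
  · have h1 := vl_same hst ht h h'
    have h7 := h1.1
    have h8 := h1.2
    cases hd : pd[i].2 with
    | true => rw [hd] at h7; simp at h7; omega
    | false => rw [hd] at h8; simp at h8; omega

/-- The words with four blocks that are not concatenations of balanced pieces. -/
def NU4 : List (List ℕ × List ℕ) :=
  [([0, 1, 2, 4], [3, 5, 6, 7]), ([0, 1, 2, 5], [3, 4, 6, 7]), ([0, 1, 3, 4], [2, 5, 6, 7]),
   ([0, 1, 3, 5], [2, 4, 6, 7]), ([0, 1, 3, 6], [2, 4, 5, 7]), ([0, 1, 3, 7], [2, 4, 5, 6]),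
   ([0, 2, 3, 5], [1, 4, 6, 7]), ([0, 4, 6, 7], [1, 2, 3, 5])]

/-- The word with three blocks that is not a concatenation of balanced pieces. -/
def NU3 : List (List ℕ × List ℕ) := [([0, 1, 3], [2, 4, 5])]

theorem cls4 : ∀ w ∈ interl 4 4, w.head? = some 0 →
    (∃ pd ∈ UG 3 0 true, w = mg (ul 2 0 0 pd) (ul 2 1 0 pd)) ∨
      (∃ p ∈ NU4, w = mg p.1 p.2) := by decide

theorem cls3 : ∀ w ∈ interl 3 3, w.head? = some 0 →
    (∃ pd ∈ UG 2 0 true, w = mg (ul 2 0 0 pd) (ul 2 1 0 pd)) ∨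
      (∃ p ∈ NU3, w = mg p.1 p.2) := by decide

theorem cls2 : ∀ w ∈ interl 2 2, w.head? = some 0 →
    (∃ pd ∈ UG 1 0 true, w = mg (ul 2 0 0 pd) (ul 2 1 0 pd)) := by decide

theorem cls1 : ∀ w ∈ interl 1 1, w.head? = some 0 →
    (∃ pd ∈ UG 0 0 true, w = mg (ul 2 0 0 pd) (ul 2 1 0 pd)) := by decide

theorem UG_ok : ∀ r ∈ [0, 1, 2, 3], ∀ pd ∈ UG r 0 true, OkP pd ∧ pd.length = r + 1 := by decide

theorem NU4_ok : ∀ p ∈ NU4, p.1.length = 4 ∧ p.2.length = 4 ∧ Sd p.1 ∧ Sd p.2 := by decide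

theorem NU3_ok : ∀ p ∈ NU3, p.1.length = 3 ∧ p.2.length = 3 ∧ Sd p.1 ∧ Sd p.2 := by decide

end Pool.Agent.Helper18.EH
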