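import Pool.Agent.Helper18.EH.K4.Hitting

/-!
A checker for refutations built from block schemes and clique templates.
-/

namespace Pool.Agent.Helper18.EH

/-- The digits of a number in base `128`. -/
def digs : ℕ → ℕ → List ℕ
  | 0, _ => []
  | k + 1, x => x % 128 :: digs k (x / 128)

/-- Decode a template with `m` members of length `J`. -/
def decT (J : ℕ) : ℕ → ℕ → List (List ℕ × ℕ)
  | 0, _ => []
  | m + 1, x => (digs J (x / 128), x % 128) :: decT J m (x / 128 ^ (J + 1))

/-- Test for strictly increasing lists. -/
def sdB : List ℕ → Bool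
  | a :: b :: l => Nat.blt a b && sdB (b :: l)
  | _ => true

/-- Test for `Priv`. -/
def privB (e : List ℕ) (k : ℕ) (f : List ℕ) : Bool :=
  f.all fun y => Nat.blt y (e.getD k 0) || Nat.blt (e.getD (e.length - 1) 0) y

/-- Remove the common initial part. -/
def strip : List ℕ → List ℕ → List ℕ × List ℕ
  | a :: e, b :: f => bif Nat.beq a b then strip e f else (a :: e, b :: f)
  | e, f => (e, f)

/-- The numerical key of a pair of lists of the same length. -/
def kc (e f : List ℕ) : ℕ := 64 * mc e f + e.length

/-- The key of a pair after removing the common part, oriented. -/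
def wk (e f : List ℕ) : ℕ :=
  match strip e f with
  | (e', f') => bif Nat.blt (e'.headD 0) (f'.headD 0) then kc e' f' else kc f' e'

/-- Membership test. -/
def memB (x : ℕ) (L : List ℕ) : Bool := L.any (Nat.beq x)

/-- Test of a template against a list of keys. -/
def okT (J : ℕ) (L : List ℕ) : List (List ℕ × ℕ) → Bool
  | [] => true
  | t :: T => Nat.beq t.1.length J && sdB t.1 && Nat.blt t.2 J &&
      (T.all fun s => privB t.1 t.2 s.1 && privB s.1 s.2 t.1 && memB (wk t.1 s.1) L) &&
      okT J L T

/-- The keys of a block scheme. -/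
def hitKeys (ls : List ℕ) : List ℕ :=
  (NU4.map fun p => kc (ex 16 ls p.1) (ex 16 ls p.2)) ++
    NU3.map fun p => kc (ex 16 ls.tail p.1) (ex 16 ls.tail p.2)

/-- Justification of a clause. -/
inductive Just
  | hit (ls : List ℕ)
  | con (J m x : ℕ)
  | rup (hs : List ℕ)

/-- A clause: if all keys of the first list have colour `true`, then some key of the second
list has colour `true`. -/
structure Entry where
  neg : List ℕ
  pos : List ℕ
  just : Just

/-- Unit propagation along given clauses. -/
def rupB (get : ℕ → Entry) : List ℕ → List ℕ → List ℕ → Bool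
  | _, _, [] => false
  | tr, fa, h :: hs =>
    match (get h).neg.filter (fun v => !memB v tr), (get h).pos.filter (fun v => !memB v fa) with
    | [], [] => true
    | [v], [] => rupB get tr (v :: fa) hs
    | [], [v] => rupB get (v :: tr) fa hs
    | _, _ => false

/-- Test of a single entry with number `i`. -/
def okE (N : ℕ) (bad : ℕ → List ℕ → Bool) (get : ℕ → Entry) (i : ℕ) (e : Entry) : Bool :=
  match e.just with
  | .hit ls => Nat.beq ls.length 4 && (ls.all fun l => Nat.blt 0 l && Nat.ble l 16) &&
      Nat.ble ls.sum N && ((hitKeys ls).all fun k => memB k e.pos)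
  | .con J m x => Nat.ble J N && okT J e.neg (decT J m x) &&
      bad J ((decT J m x).map fun t => J - t.2)
  | .rup hs => (hs.all fun h => Nat.blt h i) && rupB get e.neg e.pos hs

/-- Test of the first entries. -/
def okAll (N : ℕ) (bad : ℕ → List ℕ → Bool) (get : ℕ → Entry) : ℕ → Bool
  | 0 => true
  | i + 1 => okAll N bad get i && okE N bad get i (get i)

/-- Access in a list of chunks of length `32`. -/
def getE (db : List (List Entry)) (i : ℕ) : Entry :=
  (db.getD (i / 32) []).getD (i % 32) ⟨[0], [], .rup []⟩

/-- The full test: the last entry is the empty clause. -/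
def okDB (N : ℕ) (bad : ℕ → List ℕ → Bool) (db : List (List Entry)) (t : ℕ) : Bool :=
  okAll N bad (getE db) (t + 1) && (getE db t).neg.isEmpty && (getE db t).pos.isEmpty

section Sound

theorem sdB_sound : ∀ {l : List ℕ}, sdB l = true → Sd l
  | [], _ => List.Pairwise.nil
  | [_], _ => List.pairwise_singleton _ _
  | a :: b :: l, h => by
    simp only [sdB, Bool.and_eq_true, blt_iff] at h
    have h1 := sdB_sound h.2
    refine List.pairwise_cons.2 ⟨?_, h1⟩
    intro y hy
    rcases List.mem_cons.1 hy with rfl | hy
    · exact h.1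
    · exact h.1.trans ((List.pairwise_cons.1 h1).1 y hy)

theorem privB_sound {e : List ℕ} {k : ℕ} {f : List ℕ} (h : privB e k f = true) : Priv e k f := by
  intro y hy
  have := List.all_eq_true.1 h y hy
  simpa only [Bool.or_eq_true, blt_iff] using this

theorem memB_iff {x : ℕ} {L : List ℕ} : memB x L = true ↔ x ∈ L := by
  unfold memB
  rw [List.any_eq_true]
  constructor
  · rintro ⟨y, hy, h⟩
    rw [Nat.eq_of_beq_eq_true h]; exact hy
  · intro h
    exact ⟨x, h, Nat.beq_refl x⟩

theorem strip_spec : ∀ (e f : List ℕ), ∃ p, e = p ++ (strip e f).1 ∧ f = p ++ (strip e f).2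
  | a :: e, b :: f => by
    simp only [strip]
    cases h : Nat.beq a b with
    | true =>
      have hab := Nat.eq_of_beq_eq_true h
      subst hab
      obtain ⟨p, h1, h2⟩ := strip_spec e f
      exact ⟨a :: p, by simp only [cond_true, List.cons_append, ← h1],
        by simp only [cond_true, List.cons_append, ← h2]⟩
    | false => exact ⟨[], rfl, rfl⟩
  | [], f => ⟨[], by cases f <;> simp [strip], by cases f <;> simp [strip]⟩
  | a :: e, [] => ⟨[], by simp [strip], by simp [strip]⟩

theorem strip_head : ∀ (e f : List ℕ), e.length = f.length →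
    (strip e f).1 = [] ∨ (strip e f).1.headD 0 ≠ (strip e f).2.headD 0
  | a :: e, b :: f, h => by
    simp only [strip]
    cases hab : Nat.beq a b with
    | true => exact strip_head e f (by simpa using h)
    | false =>
      right
      simp only [cond_false, List.headD_cons]
      exact Nat.ne_of_beq_eq_false hab
  | [], f, _ => by left; cases f <;> simp [strip]
  | _ :: _, [], h => by simp at h

variable {n : ℕ} (c : (Fin n → ℕ) → (Fin n → ℕ) → Bool)

/-- The pairs with key `w` have colour `true`. -/
def V (B w : ℕ) : Prop :=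
  ∃ e f : List ℕ, e ≠ [] ∧ e.length = f.length ∧ e.length < 64 ∧ B + e.length ≤ n ∧ Sd e ∧ Sd f ∧
    kc e f = w ∧ colS c B e f = true

variable {c}

theorem V_apply (hc : Inv c) {B : ℕ} {e f : List ℕ} (hef : e.length = f.length)
    (hl : e.length < 64) (se : Sd e) (sf : Sd f) (h : V c B (kc e f)) : colS c B e f = true := by
  obtain ⟨e', f', h1, h2, h3, h4, h5, h6, h7, h8⟩ := h
  unfold kc at h7
  have h9 : e'.length = e.length := by omega
  have h10 : mc e' f' = mc e f := by omega
  have hoe := mc_OE h9 (by omega) h5 h6 se sf h10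
  rw [← h8]
  exact (colS_congr hc h2 h1 h4 h5 h6 se sf hoe).symm

theorem wk_apply (hc : Inv c) (hs : ∀ x y, c x y = c y x) {B : ℕ} {e f : List ℕ}
    (hne : e ≠ f) (hef : e.length = f.length) (hl : e.length < 64) (hn : B + e.length ≤ n)
    (se : Sd e) (sf : Sd f) (h : V c B (wk e f)) : colS c B e f = true := by
  obtain ⟨p, h1, h2⟩ := strip_spec e f
  have hh := strip_head e f hef
  unfold wk at h
  generalize hst : strip e f = q at h h1 h2 hh
  obtain ⟨e', f'⟩ := q
  simp only at h h1 h2 hh
  have hl' : e'.length = f'.length := by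
    rw [h1, h2, List.length_append, List.length_append] at hef
    omega
  have hle : e'.length ≤ e.length := by rw [h1, List.length_append]; omega
  have hne' : e' ≠ [] := by
    rintro rfl
    have : f' = [] := List.length_eq_zero_iff.1 (by simpa using hl'.symm)
    subst this
    exact hne (h1.trans h2.symm)
  have se' : Sd e' := by rw [h1] at se; exact (List.pairwise_append.1 se).2.1
  have sf' : Sd f' := by rw [h2] at sf; exact (List.pairwise_append.1 sf).2.1
  have hcol : colS c B e' f' = true := by
    cases hb : Nat.blt (e'.headD 0) (f'.headD 0) with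
    | true =>
      rw [hb, cond_true] at h
      exact V_apply hc hl' (by omega) se' sf' h
    | false =>
      rw [hb, cond_false] at h
      rw [colS_symm hs hl']
      exact V_apply hc hl'.symm (by omega) sf' se' h
  rw [← hcol]
  rw [h1] at hn se ⊢
  rw [h2] at sf ⊢
  exact colS_append hc hl' hne' hn se sf

theorem okT_sound (hc : Inv c) (hs : ∀ x y, c x y = c y x) {B J : ℕ} (hn : B + J ≤ n)
    (hJ : J < 64) {L : List ℕ} (hL : ∀ w ∈ L, V c B w) : ∀ {T : List (List ℕ × ℕ)},
    okT J L T = true → (∀ t ∈ T, t.1.length = J ∧ Sd t.1 ∧ t.2 < J) ∧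
      T.Pairwise fun s t => Priv s.1 s.2 t.1 ∧ Priv t.1 t.2 s.1 ∧ colS c B s.1 t.1 = true
  | [], _ => ⟨by simp, List.Pairwise.nil⟩
  | t :: T, h => by
    simp only [okT, Bool.and_eq_true, blt_iff] at h
    obtain ⟨⟨⟨⟨h1, h2⟩, h3⟩, h4⟩, h5⟩ := h
    obtain ⟨h6, h7⟩ := okT_sound hc hs hn hJ hL h5
    have h1' : t.1.length = J := Nat.eq_of_beq_eq_true h1
    have s2 := sdB_sound h2
    refine ⟨?_, List.pairwise_cons.2 ⟨?_, h7⟩⟩
    · intro s hs'
      rcases List.mem_cons.1 hs' with rfl | hs'
      · exact ⟨h1', s2, h3⟩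
      · exact h6 s hs'
    · intro s hs'
      have h8 := List.all_eq_true.1 h4 s hs'
      simp only [Bool.and_eq_true] at h8
      obtain ⟨s1, s3, s4⟩ := h6 s hs'
      have p1 := privB_sound h8.1.1
      refine ⟨p1, privB_sound h8.1.2, ?_⟩
      apply wk_apply hc hs _ (by rw [h1', s1]) (by omega) (by omega) s2 s3
        (hL _ (memB_iff.1 h8.2))
      intro heq
      have h9 := p1 (t.1.getD t.2 0) (by rw [← heq]; exact getD_mem' (by omega))
      have h10 := getD_le_of_sd s2 (show t.2 ≤ t.1.length - 1 by omega) (by omega)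
      omega

/-- The meaning of a clause. -/
def Valid (c : (Fin n → ℕ) → (Fin n → ℕ) → Bool) (B : ℕ) (e : Entry) : Prop :=
  (∀ w ∈ e.neg, V c B w) → ∃ w ∈ e.pos, V c B w

theorem rupB_sound {B : ℕ} {get : ℕ → Entry} : ∀ {hs tr fa : List ℕ},
    (∀ h ∈ hs, Valid c B (get h)) → rupB get tr fa hs = true → (∀ w ∈ tr, V c B w) →
    (∀ w ∈ fa, ¬ V c B w) → False
  | [], _, _, _, h, _, _ => by simp [rupB] at h
  | h :: hs, tr, fa, hv, hr, htr, hfa => by
    have hvh := hv h (by simp)
    have hvs : ∀ h' ∈ hs, Valid c B (get h') := fun h' hh' => hv h' (by simp [hh'])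
    unfold Valid at hvh
    have memN : ∀ w ∈ (get h).neg, w ∉ (get h).neg.filter (fun v => !memB v tr) → w ∈ tr := by
      intro w hw hw'
      by_contra hcon
      apply hw'
      rw [List.mem_filter]
      refine ⟨hw, ?_⟩
      rw [Bool.not_eq_true', ← Bool.not_eq_true, memB_iff]
      exact hcon
    have memP : ∀ w ∈ (get h).pos, w ∉ (get h).pos.filter (fun v => !memB v fa) → w ∈ fa := by
      intro w hw hw'
      by_contra hcon
      apply hw'
      rw [List.mem_filter]
      refine ⟨hw, ?_⟩
      rw [Bool.not_eq_true', ← Bool.not_eq_true, memB_iff]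
      exact hcon
    unfold rupB at hr
    generalize hN : (get h).neg.filter (fun v => !memB v tr) = N' at hr memN
    generalize hP : (get h).pos.filter (fun v => !memB v fa) = P' at hr memP
    match N', P', hr with
    | [], [], _ =>
      obtain ⟨w, hw, hVw⟩ := hvh (fun w hw => htr w (memN w hw (by simp)))
      exact hfa w (memP w hw (by simp)) hVw
    | [v], [], hr =>
      refine rupB_sound hvs hr htr (fun w hw => ?_)
      rcases List.mem_cons.1 hw with rfl | hw
      · intro hVw
        obtain ⟨u, hu, hVu⟩ := hvh (fun u hu => by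
          by_cases huw : u = w
          · rw [huw]; exact hVw
          · exact htr u (memN u hu (by simpa using huw)))
        exact hfa u (memP u hu (by simp)) hVu
      · exact hfa w hw
    | [], [v], hr =>
      refine rupB_sound hvs hr (fun w hw => ?_) hfa
      rcases List.mem_cons.1 hw with rfl | hw
      · obtain ⟨u, hu, hVu⟩ := hvh (fun u hu => htr u (memN u hu (by simp)))
        by_cases huw : u = w
        · rwa [huw] at hVu
        · exact absurd hVu (hfa u (memP u hu (by simpa using huw)))
      · exact htr w hw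
    | _ :: _ :: _, _, hr => simp at hr
    | [_], _ :: _, hr => simp at hr
    | [], _ :: _ :: _, hr => simp at hr

theorem hitKeys_sound (hc : Inv c) (hs : ∀ x y, c x y = c y x)
    (hno : ¬ ∃ φ : (Fin 4 → ℕ) → (Fin n → ℕ), (∀ u v, toLex u < toLex v →
      toLex (φ u) < toLex (φ v)) ∧ ∀ u v, u ≠ v → c (φ u) (φ v) = false)
    {M : ℕ} (hb : ∀ L ≤ n, ¬ HasClique c L M) {B N : ℕ} (hN : N < 64) (hn : B + N ≤ n)
    {ls : List ℕ} (h4 : ls.length = 4) (hl : ∀ l ∈ ls, 0 < l ∧ l ≤ 16) (hsum : ls.sum ≤ N) :
    ∃ w ∈ hitKeys ls, V c B w := by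
  have hlen3 : ls.tail.length = 3 := by rw [List.length_tail, h4]
  have hmem3 : ∀ l ∈ ls.tail, l ∈ ls := fun l hl => List.mem_of_mem_tail hl
  have hsum3 : ls.tail.sum ≤ ls.sum := by
    match ls, h4 with
    | l :: ls, _ => simp
  rcases hitting hc hs hno hb (B := B) (K := 16) h4 (fun l h => (hl l h).1) (fun l h => (hl l h).2)
    (by omega) with ⟨p, hp, hcol⟩ | ⟨p, hp, hcol⟩
  · obtain ⟨q1, q2, q3, q4⟩ := NU4_ok p hp
    have l1 : (ex 16 ls p.1).length = ls.sum := ex_length (by rw [q1, h4])
    have l2 : (ex 16 ls p.2).length = ls.sum := ex_length (by rw [q2, h4])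
    refine ⟨_, List.mem_append_left _ (List.mem_map.2 ⟨p, hp, rfl⟩), _, _, ?_, ?_, ?_, ?_, ?_, ?_,
      rfl, hcol⟩
    · apply ex_ne_nil (by rw [q1, h4])
      match ls, h4, hl with
      | l :: ls, _, hl => have := (hl l (by simp)).1; simp only [List.sum_cons]; omega
    · rw [l1, l2]
    · omega
    · omega
    · exact ex_sd (fun l h => (hl l h).2) q3
    · exact ex_sd (fun l h => (hl l h).2) q4
  · obtain ⟨q1, q2, q3, q4⟩ := NU3_ok p hp
    have l1 : (ex 16 ls.tail p.1).length = ls.tail.sum := ex_length (by rw [q1, hlen3])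
    have l2 : (ex 16 ls.tail p.2).length = ls.tail.sum := ex_length (by rw [q2, hlen3])
    refine ⟨_, List.mem_append_right _ (List.mem_map.2 ⟨p, hp, rfl⟩), _, _, ?_, ?_, ?_, ?_, ?_, ?_,
      rfl, hcol⟩
    · apply ex_ne_nil (by rw [q1, hlen3])
      match ls, h4, hl with
      | _ :: l :: ls, _, hl =>
        have := (hl l (by simp)).1
        simp only [List.tail_cons, List.sum_cons]
        omega
    · rw [l1, l2]
    · omega
    · omega
    · exact ex_sd (fun l h => (hl l (hmem3 l h)).2) q3
    · exact ex_sd (fun l h => (hl l (hmem3 l h)).2) q4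

/-- Soundness of the checker. -/
theorem okDB_sound (hc : Inv c) (hs : ∀ x y, c x y = c y x)
    (hno : ¬ ∃ φ : (Fin 4 → ℕ) → (Fin n → ℕ), (∀ u v, toLex u < toLex v →
      toLex (φ u) < toLex (φ v)) ∧ ∀ u v, u ≠ v → c (φ u) (φ v) = false)
    {M : ℕ} (hb : ∀ L ≤ n, ¬ HasClique c L M) {B N : ℕ} (hN : N < 64) (hn : B + N ≤ n)
    (μ : ℕ → ℕ) (hμ : ∀ d, 1 ≤ d → d ≤ N → HasClique c (B + d) (μ d))
    {bad : ℕ → List ℕ → Bool} (hbad : ∀ J ds, J ≤ N → (∀ d ∈ ds, 1 ≤ d ∧ d ≤ J) →
      bad J ds = true → ¬ HasClique c (B + J) (ds.map μ).sum)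
    {db : List (List Entry)} {t : ℕ} (h : okDB N bad db t = true) : False := by
  simp only [okDB, Bool.and_eq_true] at h
  obtain ⟨⟨h1, h2⟩, h3⟩ := h
  have hall : ∀ i, okAll N bad (getE db) i = true → ∀ j < i, Valid c B (getE db j) := by
    intro i
    induction i with
    | zero => intro _ j hj; omega
    | succ i ih =>
      intro hi j hj
      simp only [okAll, Bool.and_eq_true] at hi
      have ih' := ih hi.1
      rcases Nat.lt_succ_iff_lt_or_eq.1 hj with hj | rfl
      · exact ih' j hj
      · have he := hi.2
        unfold okE at he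
        generalize hE : getE db j = E at he
        obtain ⟨neg, pos, just⟩ := E
        cases just with
        | hit ls =>
          simp only [Bool.and_eq_true] at he
          obtain ⟨⟨⟨e1, e2⟩, e3⟩, e4⟩ := he
          intro _
          have q : ∀ l ∈ ls, 0 < l ∧ l ≤ 16 := by
            intro l hl
            have := List.all_eq_true.1 e2 l hl
            simp only [Bool.and_eq_true, blt_iff] at this
            exact ⟨this.1, Nat.le_of_ble_eq_true this.2⟩
          obtain ⟨w, hw, hV⟩ := hitKeys_sound hc hs hno hb hN hn (Nat.eq_of_beq_eq_true e1) q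
            (Nat.le_of_ble_eq_true e3)
          exact ⟨w, memB_iff.1 (List.all_eq_true.1 e4 w hw), hV⟩
        | con J m x =>
          simp only [Bool.and_eq_true] at he
          obtain ⟨⟨e1, e2⟩, e3⟩ := he
          have hJ : J ≤ N := Nat.le_of_ble_eq_true e1
          intro hneg
          exfalso
          obtain ⟨t1, t2⟩ := okT_sound hc hs (B := B) (J := J) (by omega) (by omega) hneg e2
          refine hbad J _ hJ ?_ e3 ?_
          · intro d hd
            obtain ⟨s, hs', rfl⟩ := List.mem_map.1 hd
            have := t1 s hs'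
            omega
          · rw [List.map_map]
            have := realize hc hs (B := B) (J := J) (by omega) (decT J m x) t1 t2
              (fun k => μ (J - k)) (fun s hs' => by
                have q := t1 s hs'
                have := hμ (J - s.2) (by omega) (by omega)
                rwa [show B + (J - s.2) = B + J - s.2 by omega] at this)
            exact this
        | rup hs' =>
          simp only [Bool.and_eq_true] at he
          intro hneg
          by_contra hcon
          push Not at hcon
          refine rupB_sound (c := c) (B := B) (get := getE db) (hs := hs') ?_ he.2 hneg hcon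
          intro h' hh'
          exact ih' h' (blt_iff.1 (List.all_eq_true.1 he.1 h' hh'))
  have hlast := hall (t + 1) h1 t (Nat.lt_succ_self t)
  unfold Valid at hlast
  rw [List.isEmpty_iff.1 h2, List.isEmpty_iff.1 h3] at hlast
  obtain ⟨w, hw, _⟩ := hlast (by simp)
  simp at hw

end Sound

end Pool.Agent.Helper18.EH
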