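import Pool.Agent.Helper18.EH.K4.Words

/-!
Colours of pairs of increasing lists, seen from the last coordinates.
-/

namespace Pool.Agent.Helper18.EH

theorem Sd.getElem_lt_iff {l : List ℕ} (h : Sd l) {i j : ℕ} (hi : i < l.length)
    (hj : j < l.length) : l[i] < l[j] ↔ i < j := by
  have h' := List.pairwise_iff_getElem.1 h
  constructor
  · intro hlt
    by_contra hij
    rcases Nat.lt_or_ge j i with h1 | h1
    · have := h' j i hj hi h1; omega
    · have : i = j := le_antisymm h1 (not_lt.1 hij)
      subst this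
      omega
  · exact fun hij => h' i j hi hj hij

theorem Sd.append {p x : List ℕ} (hp : Sd p) (hx : Sd x) (h : ∀ a ∈ p, ∀ b ∈ x, a < b) :
    Sd (p ++ x) := List.pairwise_append.2 ⟨hp, hx, h⟩

theorem Sd.map {x : List ℕ} (hx : Sd x) {g : ℕ → ℕ} (hg : StrictMono g) : Sd (x.map g) :=
  List.pairwise_map.2 (hx.imp (fun h => hg h))

theorem Sd.range (n : ℕ) : Sd (List.range n) := List.pairwise_lt_range

theorem OE.append {p p' x y x' y' : List ℕ} (hp : p.length = p'.length) (sp : Sd p) (sp' : Sd p')
    (hx : ∀ a ∈ p, ∀ b ∈ x, a < b) (hy : ∀ a ∈ p, ∀ b ∈ y, a < b)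
    (hx' : ∀ a ∈ p', ∀ b ∈ x', a < b) (hy' : ∀ a ∈ p', ∀ b ∈ y', a < b)
    (h : OE x y x' y') : OE (p ++ x) (p ++ y) (p' ++ x') (p' ++ y') := by
  refine ⟨by simp [hp, h.1], by simp [hp, h.2.1], fun i j hi hj hi' hj' => ?_⟩
  rcases Nat.lt_or_ge i p.length with h1 | h1 <;> rcases Nat.lt_or_ge j p.length with h2 | h2
  · have e1 : (p ++ x)[i] = p[i] := List.getElem_append_left h1
    have e2 : (p ++ y)[j] = p[j] := List.getElem_append_left h2
    have e3 : (p' ++ x')[i] = p'[i]'(hp ▸ h1) := List.getElem_append_left (hp ▸ h1)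
    have e4 : (p' ++ y')[j] = p'[j]'(hp ▸ h2) := List.getElem_append_left (hp ▸ h2)
    rw [e1, e2, e3, e4, sp.getElem_lt_iff, sp.getElem_lt_iff, sp'.getElem_lt_iff,
      sp'.getElem_lt_iff]
    exact ⟨Iff.rfl, Iff.rfl⟩
  · have e1 : (p ++ x)[i] = p[i] := List.getElem_append_left h1
    have e2 : (p ++ y)[j] = y[j - p.length]'(by simp at hj; omega) :=
      List.getElem_append_right h2
    have e3 : (p' ++ x')[i] = p'[i]'(hp ▸ h1) := List.getElem_append_left (hp ▸ h1)
    have e4 : (p' ++ y')[j] = y'[j - p'.length]'(by simp at hj'; omega) :=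
      List.getElem_append_right (hp ▸ h2)
    rw [e1, e2, e3, e4]
    have q1 := hy _ (List.getElem_mem h1) _ (List.getElem_mem
      (show j - p.length < y.length by simp at hj; omega))
    have q2 := hy' _ (List.getElem_mem (hp ▸ h1)) _ (List.getElem_mem
      (show j - p'.length < y'.length by simp at hj'; omega))
    constructor
    · exact ⟨fun _ => q2, fun _ => q1⟩
    · constructor <;> intro h3 <;> omega
  · have e1 : (p ++ y)[j] = p[j] := List.getElem_append_left h2
    have e2 : (p ++ x)[i] = x[i - p.length]'(by simp at hi; omega) :=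
      List.getElem_append_right h1
    have e3 : (p' ++ y')[j] = p'[j]'(hp ▸ h2) := List.getElem_append_left (hp ▸ h2)
    have e4 : (p' ++ x')[i] = x'[i - p'.length]'(by simp at hi'; omega) :=
      List.getElem_append_right (hp ▸ h1)
    rw [e1, e2, e3, e4]
    have q1 := hx _ (List.getElem_mem h2) _ (List.getElem_mem
      (show i - p.length < x.length by simp at hi; omega))
    have q2 := hx' _ (List.getElem_mem (hp ▸ h2)) _ (List.getElem_mem
      (show i - p'.length < x'.length by simp at hi'; omega))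
    constructor
    · constructor <;> intro h3 <;> omega
    · exact ⟨fun _ => q2, fun _ => q1⟩
  · have e1 : (p ++ x)[i] = x[i - p.length]'(by simp at hi; omega) :=
      List.getElem_append_right h1
    have e2 : (p ++ y)[j] = y[j - p.length]'(by simp at hj; omega) :=
      List.getElem_append_right h2
    have e3 : (p' ++ x')[i] = x'[i - p.length]'(by simp at hi'; omega) := by
      rw [List.getElem_append_right (hp ▸ h1)]; simp only [hp]
    have e4 : (p' ++ y')[j] = y'[j - p.length]'(by simp at hj'; omega) := by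
      rw [List.getElem_append_right (hp ▸ h2)]; simp only [hp]
    rw [e1, e2, e3, e4]
    exact h.2.2 _ _ _ _ _ _

theorem OE.of_map {x y : List ℕ} {g : ℕ → ℕ} (hg : StrictMono g) :
    OE x y (x.map g) (y.map g) := by
  refine ⟨by simp, by simp, fun i j hi hj hi' hj' => ?_⟩
  simp only [List.getElem_map]
  exact ⟨hg.lt_iff_lt.symm, hg.lt_iff_lt.symm⟩

variable {n : ℕ} (c : (Fin n → ℕ) → (Fin n → ℕ) → Bool)

/-- The colour of a pair of lists of length `n`. -/
def cl (x y : List ℕ) : Bool := c (fun i => x.getD i 0) (fun i => y.getD i 0)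

/-- Put the smallest possible initial coordinates in front of a list of length `L`. -/
def pre (n L : ℕ) (x : List ℕ) : List ℕ := List.range (n - L) ++ x.map (· + (n - L))

/-- The colour of a pair of lists of length `L`. -/
def col (L : ℕ) (x y : List ℕ) : Bool := cl c (pre n L x) (pre n L y)

theorem pre_length {L : ℕ} {x : List ℕ} (hx : x.length = L) (hL : L ≤ n) :
    (pre n L x).length = n := by
  simp [pre, hx]; omega

theorem add_mono (k : ℕ) : StrictMono (fun a : ℕ => a + k) := fun a b h => by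
  show a + k < b + k
  omega

theorem pre_sd {L : ℕ} {x : List ℕ} (hx : Sd x) : Sd (pre n L x) := by
  apply Sd.append (Sd.range _) (hx.map (add_mono _))
  intro a ha b hb
  obtain ⟨b', _, rfl⟩ := List.mem_map.1 hb
  have := List.mem_range.1 ha
  omega

variable {c}

theorem cl_congr (hc : Inv c) {x y x' y' : List ℕ} (hx : x.length = n) (hy : y.length = n)
    (sx : Sd x) (sy : Sd y) (sx' : Sd x') (sy' : Sd y') (h : OE x y x' y') :
    cl c x y = cl c x' y' := by
  have hx' : x'.length = n := h.1 ▸ hx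
  have hy' : y'.length = n := h.2.1 ▸ hy
  have g : ∀ (l : List ℕ) (hl : l.length = n) (i : Fin n), l.getD i 0 = l[(i : ℕ)]'(by
      rw [hl]; exact i.2) := by
    intro l hl i
    exact List.getD_eq_getElem _ _ (by rw [hl]; exact i.2)
  apply hc
  intro a b
  rcases a with a | a <;> rcases b with b | b <;> simp only [Sum.elim_inl, Sum.elim_inr]
  · rw [g x hx, g x hx, g x' hx', g x' hx', sx.getElem_lt_iff, sx'.getElem_lt_iff]
  · rw [g x hx, g y hy, g x' hx', g y' hy']
    exact (h.2.2 a b _ _ _ _).1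
  · rw [g x hx, g y hy, g x' hx', g y' hy']
    exact (h.2.2 b a _ _ _ _).2
  · rw [g y hy, g y hy, g y' hy', g y' hy', sy.getElem_lt_iff, sy'.getElem_lt_iff]

theorem pre_OE {L L' : ℕ} {p x y x' y' : List ℕ} (hL : p.length + L' = L) (hLn : L ≤ n)
    (sx : Sd (p ++ x)) (sy : Sd (p ++ y)) (h : OE x y x' y') :
    OE (pre n L (p ++ x)) (pre n L (p ++ y)) (pre n L' x') (pre n L' y') := by
  unfold pre
  rw [List.map_append, List.map_append, ← List.append_assoc, ← List.append_assoc]
  have sx1 := List.pairwise_append.1 sx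
  have sy1 := List.pairwise_append.1 sy
  apply OE.append
  · simp; omega
  · apply Sd.append (Sd.range _) (Sd.map sx1.1 (add_mono _))
    intro a ha b hb
    obtain ⟨b', _, rfl⟩ := List.mem_map.1 hb
    have := List.mem_range.1 ha
    omega
  · exact Sd.range _
  · intro a ha b hb
    obtain ⟨b', hb', rfl⟩ := List.mem_map.1 hb
    rcases List.mem_append.1 ha with ha | ha
    · have := List.mem_range.1 ha
      omega
    · obtain ⟨a', ha', rfl⟩ := List.mem_map.1 ha
      exact add_mono _ (sx1.2.2 _ ha' _ hb')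
  · intro a ha b hb
    obtain ⟨b', hb', rfl⟩ := List.mem_map.1 hb
    rcases List.mem_append.1 ha with ha | ha
    · have := List.mem_range.1 ha
      omega
    · obtain ⟨a', ha', rfl⟩ := List.mem_map.1 ha
      exact add_mono _ (sy1.2.2 _ ha' _ hb')
  · intro a ha b hb
    obtain ⟨b', _, rfl⟩ := List.mem_map.1 hb
    have := List.mem_range.1 ha
    omega
  · intro a ha b hb
    obtain ⟨b', _, rfl⟩ := List.mem_map.1 hb
    have := List.mem_range.1 ha
    omega
  · exact ((OE.of_map (add_mono _)).symm.trans h).trans (OE.of_map (add_mono _))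

theorem col_append (hc : Inv c) {L L' : ℕ} {p x y x' y' : List ℕ} (hL : p.length + L' = L)
    (hLn : L ≤ n) (hx : x.length = L') (hy : y.length = L')
    (sx : Sd (p ++ x)) (sy : Sd (p ++ y)) (sx' : Sd x') (sy' : Sd y') (h : OE x y x' y') :
    col c L (p ++ x) (p ++ y) = col c L' x' y' := by
  unfold col
  apply cl_congr hc _ _ (pre_sd sx) (pre_sd sy) (pre_sd sx') (pre_sd sy')
    (pre_OE hL hLn sx sy h)
  · exact pre_length (by simp [hx, hL]) hLn
  · exact pre_length (by simp [hy, hL]) hLn

theorem col_congr (hc : Inv c) {L : ℕ} {x y x' y' : List ℕ} (hLn : L ≤ n) (hx : x.length = L)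
    (hy : y.length = L) (sx : Sd x) (sy : Sd y) (sx' : Sd x') (sy' : Sd y') (h : OE x y x' y') :
    col c L x y = col c L x' y' :=
  col_append (p := []) hc (by simp) hLn hx hy sx sy sx' sy' h

theorem col_symm (hs : ∀ x y, c x y = c y x) {L : ℕ} {x y : List ℕ} :
    col c L x y = col c L y x := hs _ _

variable (c)

/-- There is a set of `m` lists of length `L` all of whose pairs have colour `true`. -/
def HasClique (L m : ℕ) : Prop :=
  ∃ K : Finset (List ℕ), K.card = m ∧ (∀ x ∈ K, x.length = L ∧ Sd x) ∧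
    ∀ x ∈ K, ∀ y ∈ K, x ≠ y → col c L x y = true

variable {c}

theorem HasClique.mono {L m m' : ℕ} (h : HasClique c L m) (hm : m' ≤ m) : HasClique c L m' := by
  obtain ⟨K, hK, h1, h2⟩ := h
  obtain ⟨K', hK', hcard⟩ := Finset.exists_subset_card_eq (hK ▸ hm : m' ≤ K.card)
  exact ⟨K', hcard, fun x hx => h1 x (hK' hx), fun x hx y hy => h2 x (hK' hx) y (hK' hy)⟩

theorem hasClique_one (L : ℕ) : HasClique c L 1 :=
  ⟨{List.range L}, by simp, by simp [Sd.range], by
    intro x hx y hy hxy
    rw [Finset.mem_singleton] at hx hy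
    exact absurd (hx.trans hy.symm) hxy⟩

theorem HasClique.up (hc : Inv c) {L m : ℕ} (hL : L + 1 ≤ n) (h : HasClique c L m) :
    HasClique c (L + 1) m := by
  obtain ⟨K, hK, h1, h2⟩ := h
  have hinj : Function.Injective (fun x : List ℕ => 0 :: x.map (· + 1)) := by
    intro x y hxy
    simp only [List.cons.injEq, true_and] at hxy
    exact List.map_injective_iff.2 (add_left_injective 1) hxy
  have hsd : ∀ x : List ℕ, Sd x → Sd (0 :: x.map (· + 1)) := by
    intro x hx
    apply List.pairwise_cons.2 ⟨?_, hx.map (add_mono 1)⟩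
    intro b hb
    obtain ⟨b', _, rfl⟩ := List.mem_map.1 hb
    omega
  refine ⟨K.image (fun x => 0 :: x.map (· + 1)), ?_, ?_, ?_⟩
  · rw [Finset.card_image_of_injective _ hinj, hK]
  · intro x hx
    obtain ⟨x', hx', rfl⟩ := Finset.mem_image.1 hx
    exact ⟨by simp [(h1 x' hx').1], hsd _ (h1 x' hx').2⟩
  · intro x hx y hy hxy
    obtain ⟨x', hx', rfl⟩ := Finset.mem_image.1 hx
    obtain ⟨y', hy', rfl⟩ := Finset.mem_image.1 hy
    rw [← h2 x' hx' y' hy' (fun h => hxy (by rw [h]))]
    have := col_append (c := c) (p := [0]) (x := x'.map (· + 1)) (y := y'.map (· + 1)) (x' := x')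
      (y' := y') hc (L := L + 1) (L' := L) (by simp; omega) hL (by simp [(h1 x' hx').1])
      (by simp [(h1 y' hy').1]) (hsd _ (h1 x' hx').2) (hsd _ (h1 y' hy').2) (h1 x' hx').2
      (h1 y' hy').2 (OE.of_map (add_mono 1)).symm
    exact this

end Pool.Agent.Helper18.EH
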