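import Pool.Agent.Helper18.EH.K4.Cert

/-!
Certificate data (window D).
-/

namespace Pool.Agent.Helper18.EH

/-- Part 0 of the certificate. -/
def dbD0 : List Entry := [
  ⟨[], [5574660, 5525508, 5571588, 5522436, 5325828, 4539396, 5521668, 4265220, 345091], .hit [1, 1, 1, 1]⟩,
  ⟨[5525508], [], .con 4 2 64998214886230081539⟩,
  ⟨[5522436], [], .con 4 2 64998210488185667587⟩,
  ⟨[4265220], [], .con 4 2 46334163369311928322⟩,
  ⟨[5574660], [], .con 4 2 64998777801555329027⟩,
  ⟨[4539396], [], .con 4 2 55702780823470096387⟩,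
  ⟨[345091], [], .con 3 2 2832410947371010⟩,
  ⟨[5521668], [], .con 4 2 64998206090139172867⟩,
  ⟨[5571588], [], .con 4 2 64998773403510915074⟩,
  ⟨[5325828], [], .con 4 2 64926152928775913475⟩,
  ⟨[], [5325828], .rup [8, 1, 2, 4, 5, 7, 3, 6, 0]⟩,
  ⟨[], [], .rup [10, 9]⟩]

/-- The certificate. -/
def dbD : List (List Entry) := [dbD0]

end Pool.Agent.Helper18.EH
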