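import Pool.Agent.Helper18.EH.K4.Cert

/-!
Certificate data (window X).
-/

namespace Pool.Agent.Helper18.EH

/-- Part 0 of the certificate. -/
def dbX0 : List Entry := [
  ⟨[], [1431307270, 1431371782, 1430585350, 1430520838, 1364460550, 1163133958, 1430520070, 1074877702, 89407493], .hit [1, 1, 3, 1]⟩,
  ⟨[], [5571588, 5574660, 5525508, 345091, 5522436, 5325828, 4539396, 5521668, 4265220], .hit [1, 1, 1, 1]⟩,
  ⟨[4265220], [], .con 4 2 46334163369311928322⟩,
  ⟨[4539396], [], .con 4 2 55702780823470096387⟩,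
  ⟨[5522436], [], .con 4 2 64998210488185667587⟩,
  ⟨[345091], [], .con 3 2 2832410947371010⟩,
  ⟨[5571588], [], .con 4 2 64998773403510915074⟩,
  ⟨[5574660], [], .con 4 2 64998777801555329027⟩,
  ⟨[5525508], [], .con 4 2 64998214886230081539⟩,
  ⟨[5521668], [], .con 4 2 64998206090139172867⟩,
  ⟨[1431307270], [], .con 6 2 27429478546405047870016208898⟩,
  ⟨[5325828, 89407493], [], .con 5 3 8702738934394022547278941941261156356⟩,
  ⟨[5325828, 1431371782], [], .con 6 3 21060509074503633191626312254887124541652997⟩,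
  ⟨[5325828, 1074877702], [], .con 6 3 15419473437560432736046104858651933871849474⟩,
  ⟨[5325828, 1430520070], [], .con 6 3 21060509063835405148130787896284876724273157⟩,
  ⟨[5325828, 1163133958], [], .con 6 3 18250966372164938749707113889402697057058821⟩,
  ⟨[5325828, 1430520838], [], .con 6 3 21060509063875969967338082013760734372052997⟩,
  ⟨[5325828, 1364460550], [], .con 6 4 15000741336881097511289864117578378850835080216474101497861⟩,
  ⟨[5325828, 1430585350], [], .con 6 3 21060509064119358863086792625941453903773701⟩,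
  ⟨[], [5325828], .rup [9, 6, 5, 4, 7, 3, 8, 2, 1]⟩,
  ⟨[89407493], [], .rup [19, 11]⟩,
  ⟨[1431371782], [], .rup [19, 12]⟩,
  ⟨[1074877702], [], .rup [19, 13]⟩,
  ⟨[1430520070], [], .rup [19, 14]⟩,
  ⟨[1163133958], [], .rup [19, 15]⟩,
  ⟨[1430520838], [], .rup [19, 16]⟩,
  ⟨[1364460550], [], .rup [19, 17]⟩,
  ⟨[], [1430585350], .rup [26, 10, 21, 25, 24, 23, 22, 20, 0]⟩,
  ⟨[], [], .rup [19, 27, 18]⟩]

/-- The certificate. -/
def dbX : List (List Entry) := [dbX0]

end Pool.Agent.Helper18.EH
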