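import Pool.Agent.Helper18.EH.K4.Realize

/-!
Sets of order type `ω ^ 4` in block form, and the words of their pairs.
-/

namespace Pool.Agent.Helper18.EH

/-- Replace the entry number `i` by a block of `ls[i]` consecutive numbers. -/
def ex (K : ℕ) : List ℕ → List ℕ → List ℕ
  | l :: ls, x :: xs => (List.range l).map (fun o => K * x + o) ++ ex K ls xs
  | _, _ => []

theorem ex_cons {K l x : ℕ} {ls xs : List ℕ} :
    ex K (l :: ls) (x :: xs) = (List.range l).map (fun o => K * x + o) ++ ex K ls xs := rfl

theorem ex_length {K : ℕ} : ∀ {ls xs : List ℕ}, xs.length = ls.length →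
    (ex K ls xs).length = ls.sum
  | [], [], _ => rfl
  | [], _ :: _, h => by simp at h
  | l :: ls, x :: xs, h => by
    rw [ex_cons]
    simp [ex_length (K := K) (ls := ls) (xs := xs) (by simpa using h)]
  | _ :: _, [], h => by simp at h

/-- Every position of `ex K ls xs` has a block and an offset. -/
theorem ex_getElem {K : ℕ} : ∀ (ls : List ℕ) (i : ℕ), (∀ l ∈ ls, l ≤ K) → i < ls.sum →
    ∃ q o, q < ls.length ∧ o < K ∧ ∀ (xs : List ℕ) (_ : xs.length = ls.length)
      (hi : i < (ex K ls xs).length), (ex K ls xs)[i] = K * xs.getD q 0 + o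
  | [], i, _, hi => by simp at hi
  | l :: ls, i, hK, hi => by
    rcases Nat.lt_or_ge i l with h | h
    · refine ⟨0, i, by simp, lt_of_lt_of_le h (hK l (by simp)), ?_⟩
      intro xs hxs hi'
      match xs, hxs with
      | x :: xs, hxs =>
        have h0 : (ex K (l :: ls) (x :: xs))[i] =
          ((List.range l).map (fun o => K * x + o) ++ ex K ls xs)[i]'(by
            rw [← ex_cons]; exact hi') := by simp only [ex_cons]
        rw [h0, List.getElem_append_left (by simpa using h)]
        simp
    · obtain ⟨q, o, hq, ho, hall⟩ := ex_getElem ls (i - l) (fun l' hl' => hK l' (by simp [hl']))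
        (by simp only [List.sum_cons] at hi; omega)
      refine ⟨q + 1, o, by simpa using hq, ho, ?_⟩
      intro xs hxs hi'
      match xs, hxs with
      | x :: xs, hxs =>
        have h0 : (ex K (l :: ls) (x :: xs))[i] =
          ((List.range l).map (fun o => K * x + o) ++ ex K ls xs)[i]'(by
            rw [← ex_cons]; exact hi') := by simp only [ex_cons]
        rw [h0, List.getElem_append_right (by simpa using h)]
        simp only [List.length_map, List.length_range, List.getD_cons_succ]
        exact hall xs (by simpa using hxs) _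

theorem ex_lt_of_mem {K : ℕ} : ∀ {ls xs : List ℕ} {y : ℕ}, (∀ l ∈ ls, l ≤ K) → y ∈ ex K ls xs →
    ∃ x ∈ xs, K * x ≤ y ∧ y < K * (x + 1)
  | [], _, y, _, h => by simp [ex] at h
  | l :: ls, [], y, _, h => by simp [ex] at h
  | l :: ls, x :: xs, y, hK, h => by
    rw [ex_cons] at h
    rcases List.mem_append.1 h with h | h
    · obtain ⟨o, ho, rfl⟩ := List.mem_map.1 h
      have h1 := List.mem_range.1 ho
      have h2 := hK l (by simp)
      refine ⟨x, by simp, by omega, ?_⟩
      rw [mul_add, mul_one]; omega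
    · obtain ⟨x', hx', h1, h2⟩ := ex_lt_of_mem (fun l' hl' => hK l' (by simp [hl'])) h
      exact ⟨x', by simp [hx'], h1, h2⟩

theorem ex_sd {K : ℕ} : ∀ {ls xs : List ℕ}, (∀ l ∈ ls, l ≤ K) → Sd xs → Sd (ex K ls xs)
  | [], _, _, _ => by simp [ex]
  | l :: ls, [], _, _ => by simp [ex]
  | l :: ls, x :: xs, hK, hs => by
    rw [ex_cons]
    apply Sd.append
    · exact (Sd.range l).map (fun a b h => by show K * x + a < K * x + b; omega)
    · exact ex_sd (fun l' hl' => hK l' (by simp [hl'])) (List.pairwise_cons.1 hs).2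
    · intro a ha b hb
      obtain ⟨o, ho, rfl⟩ := List.mem_map.1 ha
      obtain ⟨x', hx', h1, h2⟩ := ex_lt_of_mem (fun l' hl' => hK l' (by simp [hl'])) hb
      have h3 := (List.pairwise_cons.1 hs).1 x' hx'
      have h4 := List.mem_range.1 ho
      have h5 := hK l (by simp)
      have h6 : K * (x + 1) ≤ K * x' := Nat.mul_le_mul_left K h3
      rw [mul_add, mul_one] at h6
      show K * x + o < b
      omega

theorem getD_eq_iff_of_OE {a b a' b' : List ℕ} (h : OE a b a' b') {i j : ℕ} (hi : i < a.length)
    (hj : j < b.length) :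
    (a.getD i 0 < b.getD j 0 ↔ a'.getD i 0 < b'.getD j 0) ∧
    (b.getD j 0 < a.getD i 0 ↔ b'.getD j 0 < a'.getD i 0) := by
  have hi' : i < a'.length := h.1 ▸ hi
  have hj' : j < b'.length := h.2.1 ▸ hj
  rw [List.getD_eq_getElem _ _ hi, List.getD_eq_getElem _ _ hj, List.getD_eq_getElem _ _ hi',
    List.getD_eq_getElem _ _ hj']
  exact h.2.2 i j hi hj hi' hj'

theorem ex_OE {K : ℕ} {ls a b a' b' : List ℕ} (hK : ∀ l ∈ ls, l ≤ K)
    (ha : a.length = ls.length) (hb : b.length = ls.length) (h : OE a b a' b') :
    OE (ex K ls a) (ex K ls b) (ex K ls a') (ex K ls b') := by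
  have ha' : a'.length = ls.length := h.1 ▸ ha
  have hb' : b'.length = ls.length := h.2.1 ▸ hb
  refine ⟨by rw [ex_length ha, ex_length ha'], by rw [ex_length hb, ex_length hb'], ?_⟩
  intro i j hi hj hi' hj'
  obtain ⟨q, o, hq, ho, hall⟩ := ex_getElem ls i hK (by rwa [ex_length ha] at hi)
  obtain ⟨q', o', hq', ho', hall'⟩ := ex_getElem ls j hK (by rwa [ex_length hb] at hj)
  rw [hall a ha hi, hall a' ha' hi', hall' b hb hj, hall' b' hb' hj']
  rw [mul_add_lt_iff ho ho', mul_add_lt_iff ho ho', mul_add_lt_iff ho' ho, mul_add_lt_iff ho' ho]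
  have h1 := getD_eq_iff_of_OE h (i := q) (j := q') (by omega) (by omega)
  constructor
  · constructor
    · rintro (h2 | ⟨h2, h3⟩)
      · exact Or.inl (h1.1.1 h2)
      · right
        refine ⟨?_, h3⟩
        have := h1.1; have := h1.2
        omega
    · rintro (h2 | ⟨h2, h3⟩)
      · exact Or.inl (h1.1.2 h2)
      · right
        refine ⟨?_, h3⟩
        have := h1.1; have := h1.2
        omega
  · constructor
    · rintro (h2 | ⟨h2, h3⟩)
      · exact Or.inl (h1.2.1 h2)
      · right
        refine ⟨?_, h3⟩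
        have := h1.1; have := h1.2
        omega
    · rintro (h2 | ⟨h2, h3⟩)
      · exact Or.inl (h1.2.2 h2)
      · right
        refine ⟨?_, h3⟩
        have := h1.1; have := h1.2
        omega

theorem ex_append {K : ℕ} : ∀ {ls xs ls' xs' : List ℕ}, xs.length = ls.length →
    ex K (ls ++ ls') (xs ++ xs') = ex K ls xs ++ ex K ls' xs'
  | [], [], _, _, _ => rfl
  | [], _ :: _, _, _, h => by simp at h
  | l :: ls, x :: xs, ls', xs', h => by
    rw [List.cons_append, List.cons_append, ex_cons, ex_cons, List.append_assoc,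
      ex_append (by simpa using h)]
  | _ :: _, [], _, _, h => by simp at h

theorem st_append {B : ℕ} {p e : List ℕ} (he : e ≠ []) :
    st B (p ++ e) = p.map ((B + 2) * ·) ++ st B e := by
  have h1 : 0 < e.length := List.length_pos_iff.2 he
  unfold st rl
  have h2 : (p ++ e).length - 1 = p.length + (e.length - 1) := by simp; omega
  rw [h2, List.take_length_add_append, List.map_append, List.append_assoc]
  have h3 : (p ++ e).getD (p.length + (e.length - 1)) 0 = e.getD (e.length - 1) 0 := by
    rw [List.getD_append_right _ _ _ _ (by omega)]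
    simp
  rw [h3]

theorem st_length {B : ℕ} {e : List ℕ} (he : e ≠ []) : (st B e).length = B + e.length := by
  have h1 : 0 < e.length := List.length_pos_iff.2 he
  unfold st
  rw [rl_length (by omega)]; simp; omega

theorem st_sd {B : ℕ} {e : List ℕ} (he : e ≠ []) (se : Sd e) : Sd (st B e) := by
  have h1 : 0 < e.length := List.length_pos_iff.2 he
  exact rl_sd (by omega) se (Sd.range _) (Nat.succ_pos _)

theorem st_getElem {B : ℕ} {e : List ℕ} (he : e ≠ []) {i : ℕ} (hi : i < (st B e).length) :
    (st B e)[i] = (B + 2) * e.getD (min i (e.length - 1)) 0 + (if i < e.length - 1 then 0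
      else 1 + (List.range (B + 1)).getD (i - (e.length - 1)) 0) := by
  have h1 : 0 < e.length := List.length_pos_iff.2 he
  exact rl_getElem (N := B + 2) (k := e.length - 1) (e := e) (w := List.range (B + 1)) (by omega) hi

theorem st_OE {B : ℕ} {e f e' f' : List ℕ} (hef : e.length = f.length) (he : e ≠ [])
    (h : OE e f e' f') : OE (st B e) (st B f) (st B e') (st B f') := by
  have h1 : 0 < e.length := List.length_pos_iff.2 he
  have l1 := h.1
  have l2 := h.2.1
  have ne1 : f ≠ [] := List.length_pos_iff.1 (hef ▸ h1)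
  have ne2 : e' ≠ [] := List.length_pos_iff.1 (l1 ▸ h1)
  have ne3 : f' ≠ [] := List.length_pos_iff.1 (l2 ▸ hef ▸ h1)
  refine ⟨by rw [st_length he, st_length ne2, l1], by rw [st_length ne1, st_length ne3, l2], ?_⟩
  intro i j hi hj hi' hj'
  have bi : i < B + e.length := by rwa [st_length he] at hi
  have bj : j < B + e.length := by rwa [st_length ne1, ← hef] at hj
  have off : ∀ (J t : ℕ), t < B + J → 0 < J →
      (if t < J - 1 then 0 else 1 + (List.range (B + 1)).getD (t - (J - 1)) 0) < B + 2 := by
    intro J t ht hJ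
    split_ifs
    · omega
    · rw [List.getD_eq_getElem _ _ (by simp; omega), List.getElem_range]; omega
  rw [st_getElem he, st_getElem ne1, st_getElem ne2, st_getElem ne3, ← l1, ← l2, ← hef]
  rw [mul_add_lt_iff (off _ _ bi h1) (off _ _ bj h1), mul_add_lt_iff (off _ _ bi h1) (off _ _ bj h1),
    mul_add_lt_iff (off _ _ bj h1) (off _ _ bi h1), mul_add_lt_iff (off _ _ bj h1) (off _ _ bi h1)]
  have q := getD_eq_iff_of_OE h (i := min i (e.length - 1)) (j := min j (e.length - 1))
    (by omega) (by omega)
  constructor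
  · constructor
    · rintro (h2 | ⟨h2, h3⟩)
      · exact Or.inl (q.1.1 h2)
      · right
        refine ⟨?_, h3⟩
        have := q.1; have := q.2
        omega
    · rintro (h2 | ⟨h2, h3⟩)
      · exact Or.inl (q.1.2 h2)
      · right
        refine ⟨?_, h3⟩
        have := q.1; have := q.2
        omega
  · constructor
    · rintro (h2 | ⟨h2, h3⟩)
      · exact Or.inl (q.2.1 h2)
      · right
        refine ⟨?_, h3⟩
        have := q.1; have := q.2
        omega
    · rintro (h2 | ⟨h2, h3⟩)
      · exact Or.inl (q.2.2 h2)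
      · right
        refine ⟨?_, h3⟩
        have := q.1; have := q.2
        omega

variable {n : ℕ} {c : (Fin n → ℕ) → (Fin n → ℕ) → Bool}

theorem colS_congr (hc : Inv c) {B : ℕ} {e f e' f' : List ℕ} (hef : e.length = f.length)
    (he : e ≠ []) (hn : B + e.length ≤ n) (se : Sd e) (sf : Sd f) (se' : Sd e') (sf' : Sd f')
    (h : OE e f e' f') : colS c B e f = colS c B e' f' := by
  have h1 : 0 < e.length := List.length_pos_iff.2 he
  have ne1 : f ≠ [] := List.length_pos_iff.1 (hef ▸ h1)
  have ne2 : e' ≠ [] := List.length_pos_iff.1 (h.1 ▸ h1)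
  have ne3 : f' ≠ [] := List.length_pos_iff.1 (h.2.1 ▸ hef ▸ h1)
  unfold colS
  rw [← h.1]
  exact col_congr hc hn (st_length he) (by rw [st_length ne1, hef]) (st_sd he se) (st_sd ne1 sf)
    (st_sd ne2 se') (st_sd ne3 sf') (st_OE hef he h)

theorem colS_append (hc : Inv c) {B : ℕ} {p e f : List ℕ} (hef : e.length = f.length)
    (he : e ≠ []) (hn : B + (p ++ e).length ≤ n) (se : Sd (p ++ e)) (sf : Sd (p ++ f)) :
    colS c B (p ++ e) (p ++ f) = colS c B e f := by
  have h1 : 0 < e.length := List.length_pos_iff.2 he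
  have ne1 : f ≠ [] := List.length_pos_iff.1 (hef ▸ h1)
  have s1 := (List.pairwise_append.1 se).2.1
  have s2 := (List.pairwise_append.1 sf).2.1
  have s3 := st_sd (B := B) (by simp [he]) se
  have s4 := st_sd (B := B) (by simp [ne1]) sf
  rw [st_append he] at s3
  rw [st_append ne1] at s4
  unfold colS
  rw [st_append he, st_append ne1]
  apply col_append hc (L' := B + e.length) _ hn (st_length he) (by rw [st_length ne1, hef]) s3 s4
    (st_sd he s1) (st_sd ne1 s2)
  · exact ⟨rfl, rfl, fun _ _ _ _ _ _ => ⟨Iff.rfl, Iff.rfl⟩⟩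
  · simp; omega

theorem colS_symm (hs : ∀ x y, c x y = c y x) {B : ℕ} {e f : List ℕ} (hef : e.length = f.length) :
    colS c B e f = colS c B f e := by
  unfold colS
  rw [hef]
  exact col_symm hs

end Pool.Agent.Helper18.EH
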