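import Pool.Agent.Helper18.EH.K4.Block

/-!
The hitting property: if there is no set of type `ω ^ 4` of colour `false` and cliques are
bounded, then one of the nine relevant words of every block scheme has colour `true`.
-/

namespace Pool.Agent.Helper18.EH

variable {n : ℕ} {c : (Fin n → ℕ) → (Fin n → ℕ) → Bool}

theorem ex_ne_nil {K : ℕ} {ls xs : List ℕ} (hl : xs.length = ls.length) (h : 0 < ls.sum) :
    ex K ls xs ≠ [] := by
  apply List.length_pos_iff.1
  rw [ex_length hl]; exact h

theorem ex_disj {K : ℕ} {ls xs ys : List ℕ} (hK : ∀ l ∈ ls, l ≤ K)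
    (hne : ∀ x ∈ xs, ∀ y ∈ ys, x ≠ y) {a b : ℕ} (ha : a ∈ ex K ls xs) (hb : b ∈ ex K ls ys) :
    a ≠ b := by
  obtain ⟨x, hx, h1, h2⟩ := ex_lt_of_mem hK ha
  obtain ⟨y, hy, h3, h4⟩ := ex_lt_of_mem hK hb
  rintro rfl
  rcases lt_or_gt_of_ne (hne x hx y hy) with h | h
  · have := Nat.mul_le_mul_left K (show x + 1 ≤ y from h)
    omega
  · have := Nat.mul_le_mul_left K (show y + 1 ≤ x from h)
    omega

theorem U_clique (hc : Inv c) (hs : ∀ x y, c x y = c y x) {B K : ℕ} {ls : List ℕ}
    {pd : List (ℕ × Bool)} (hK : ∀ l ∈ ls, l ≤ K) (hpos : 0 < ls.sum) (hlen : ls.length = pd.length)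
    (hl4 : pd.length ≤ 4) (hok : OkP pd) (hn : B + ls.sum ≤ n)
    (hcol : colS c B (ex K ls (ul 2 0 0 pd)) (ex K ls (ul 2 1 0 pd)) = true) (m : ℕ) :
    HasClique c (B + ls.sum) m := by
  have len : ∀ m t, (ul m t 0 pd).length = ls.length := fun m t => by rw [ul_length, hlen]
  have hT := realize hc hs (B := B) (J := ls.sum) hn
    ((List.range m).map (fun t => (ex K ls (ul m t 0 pd), ls.sum - 1))) ?_ ?_ (fun _ => 1) ?_
  · simpa [Function.comp_def] using hT
  · intro t ht
    obtain ⟨i, hi, rfl⟩ := List.mem_map.1 ht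
    have hi' := List.mem_range.1 hi
    exact ⟨ex_length (len _ _), ex_sd hK (ul_sd hi' hok), by show ls.sum - 1 < ls.sum; omega⟩
  · rw [List.pairwise_map]
    refine (Sd.range m).imp_of_mem ?_
    intro s t _ ht' hst
    have ht := List.mem_range.1 ht'
    have hss : s < m := hst.trans ht
    have priv : ∀ a b : ℕ, a < m → b < m → a ≠ b →
        Priv (ex K ls (ul m a 0 pd)) (ls.sum - 1) (ex K ls (ul m b 0 pd)) := by
      intro a b ha hb hab y hy
      have h1 : (ex K ls (ul m a 0 pd)).length = ls.sum := ex_length (len _ _)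
      have h2 : (ex K ls (ul m a 0 pd)).getD (ls.sum - 1) 0 ∈ ex K ls (ul m a 0 pd) :=
        getD_mem' (by omega)
      have h3 : (ex K ls (ul m a 0 pd)).getD (ls.sum - 1) 0 ≠ y := by
        refine ex_disj hK ?_ h2 hy
        intro x hx z hz
        rcases lt_or_gt_of_ne hab with h | h
        · exact ul_ne h hb hok hl4 hx hz
        · exact (ul_ne h ha hok hl4 hz hx).symm
      rw [h1]
      omega
    refine ⟨priv s t hss ht hst.ne, priv t s ht hss hst.ne', ?_⟩
    rw [← hcol]
    apply colS_congr hc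
    · rw [ex_length (len _ _), ex_length (len _ _)]
    · exact ex_ne_nil (len _ _) hpos
    · rw [ex_length (len _ _)]; exact hn
    · exact ex_sd hK (ul_sd hss hok)
    · exact ex_sd hK (ul_sd ht hok)
    · exact ex_sd hK (ul_sd (by omega) hok)
    · exact ex_sd hK (ul_sd (by omega) hok)
    · exact ex_OE hK (len _ _) (len _ _) (ul_OE hst ht hok hl4)
  · intro t ht
    exact hasClique_one _

/-- The block numbers of a point of `ω ^ 4`. -/
def cds (u : Fin 4 → ℕ) : List ℕ :=
  [4 * code (ext u) 0, 4 * code (ext u) 1 + 1, 4 * code (ext u) 2 + 2, 4 * code (ext u) 3 + 3]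

theorem cds_length (u : Fin 4 → ℕ) : (cds u).length = 4 := rfl

theorem cds_getElem (u : Fin 4 → ℕ) {i : ℕ} (hi : i < 4) :
    (cds u)[i]'(by rw [cds_length]; exact hi) = 4 * code (ext u) i + i := by
  interval_cases i <;> rfl

theorem cds_drop (u : Fin 4 → ℕ) {i : ℕ} (hi : i < 4) :
    (cds u).drop i = (4 * code (ext u) i + i) :: (cds u).drop (i + 1) := by
  interval_cases i <;> rfl

theorem cds_take {u v : Fin 4 → ℕ} {i : ℕ} (hi : i < 4)
    (h : ∀ j, j < i → code (ext u) j = code (ext v) j) : (cds u).take i = (cds v).take i := by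
  have h0 := h 0
  have h1 := h 1
  have h2 := h 2
  interval_cases i <;> simp_all [cds]

theorem cds_sd (u : Fin 4 → ℕ) : Sd (cds u) := by
  have h1 := code_lt_succ (ext u) 0
  have h2 := code_lt_succ (ext u) 1
  have h3 := code_lt_succ (ext u) 2
  simp only [Nat.reduceAdd] at h1 h2 h3
  simp only [cds, Sd, List.pairwise_cons, List.mem_cons, List.not_mem_nil, or_false,
    forall_eq_or_imp, forall_eq, false_imp_iff, implies_true, List.Pairwise.nil, and_true]
  refine ⟨⟨?_, ?_, ?_⟩, ⟨?_, ?_⟩, ?_⟩ <;> omega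

/-- `Y` is larger than `X` at the first difference. -/
def LexL (X Y : List ℕ) : Prop :=
  ∃ Q x E y F, X = Q ++ x :: E ∧ Y = Q ++ y :: F ∧ x < y ∧ E.length = F.length

theorem LexL.ex {K : ℕ} (hK : 0 < K) : ∀ {ls xs ys : List ℕ}, (∀ l ∈ ls, 0 < l) →
    xs.length = ls.length → ys.length = ls.length → LexL xs ys → LexL (ex K ls xs) (ex K ls ys)
  | [], xs, ys, _, hx, _, h => by
    obtain ⟨Q, x, E, y, F, h1, h2, _, _⟩ := h
    subst h1; simp at hx
  | l :: ls, x0 :: xs, y0 :: ys, hl, hx, hy, h => by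
    obtain ⟨Q, x, E, y, F, h1, h2, h3, h4⟩ := h
    have hl0 : 0 < l := hl l (by simp)
    obtain ⟨l', rfl⟩ : ∃ l', l = l' + 1 := ⟨l - 1, by omega⟩
    match Q with
    | [] =>
      simp only [List.nil_append, List.cons.injEq] at h1 h2
      obtain ⟨rfl, rfl⟩ := h1
      obtain ⟨rfl, rfl⟩ := h2
      rw [ex_cons, ex_cons, List.range_succ_eq_map]
      refine ⟨[], K * x0 + 0, (List.map (fun o => K * x0 + o) (List.map Nat.succ (List.range l'))) ++
        EH.ex K ls xs, K * y0 + 0, (List.map (fun o => K * y0 + o)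
        (List.map Nat.succ (List.range l'))) ++ EH.ex K ls ys, rfl, rfl, ?_, ?_⟩
      · have := Nat.mul_lt_mul_of_pos_left h3 hK
        omega
      · simp only [List.length_append, List.length_map, List.length_range]
        rw [ex_length (by simpa using hx), ex_length (by simpa using hy)]
    | q :: Q =>
      simp only [List.cons_append, List.cons.injEq] at h1 h2
      obtain ⟨rfl, h1⟩ := h1
      obtain ⟨rfl, h2⟩ := h2
      obtain ⟨Q', x', E', y', F', g1, g2, g3, g4⟩ := LexL.ex hK (ls := ls) (xs := xs) (ys := ys)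
        (fun l' hl' => hl l' (by simp [hl'])) (by simpa using hx) (by simpa using hy)
        ⟨Q, x, E, y, F, h1, h2, h3, h4⟩
      rw [ex_cons, ex_cons, g1, g2]
      exact ⟨_ ++ Q', x', E', y', F', (List.append_assoc _ _ _).symm,
        (List.append_assoc _ _ _).symm, g3, g4⟩
  | _ :: _, [], _, _, hx, _, _ => by simp at hx
  | _ :: _, _ :: _, [], _, _, hy, _ => by simp at hy

theorem st_cons_cons {B x y : ℕ} {l : List ℕ} :
    st B (x :: y :: l) = (B + 2) * x :: st B (y :: l) := by
  have := st_append (B := B) (p := [x]) (e := y :: l) (by simp)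
  simpa using this

theorem st_single {B x : ℕ} :
    st B [x] = (List.range (B + 1)).map (fun a => (B + 2) * x + 1 + a) := by
  simp [st, rl]

theorem LexL.st {B : ℕ} {e f : List ℕ} (h : LexL e f) : LexL (st B e) (st B f) := by
  obtain ⟨Q, x, E, y, F, rfl, rfl, h3, h4⟩ := h
  rw [st_append (by simp), st_append (by simp)]
  have hlt : (B + 2) * x < (B + 2) * y := Nat.mul_lt_mul_of_pos_left h3 (Nat.succ_pos _)
  match E, F, h4 with
  | [], [], _ =>
    rw [st_single, st_single, List.range_succ_eq_map]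
    exact ⟨Q.map ((B + 2) * ·), (B + 2) * x + 1 + 0,
      List.map (fun a => (B + 2) * x + 1 + a) (List.map Nat.succ (List.range B)),
      (B + 2) * y + 1 + 0,
      List.map (fun a => (B + 2) * y + 1 + a) (List.map Nat.succ (List.range B)), rfl, rfl,
      by omega, by simp⟩
  | x' :: E, y' :: F, h4 =>
    rw [st_cons_cons, st_cons_cons]
    refine ⟨Q.map ((B + 2) * ·), (B + 2) * x, _, (B + 2) * y, _, rfl, rfl, hlt, ?_⟩
    rw [st_length (by simp), st_length (by simp)]
    simpa using h4

theorem LexL.pre {L : ℕ} {e f : List ℕ} (h : LexL e f) : LexL (pre n L e) (pre n L f) := by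
  obtain ⟨Q, x, E, y, F, rfl, rfl, h3, h4⟩ := h
  unfold EH.pre
  refine ⟨List.range (n - L) ++ Q.map (· + (n - L)), x + (n - L), E.map (· + (n - L)),
    y + (n - L), F.map (· + (n - L)), by simp, by simp, by omega, by simp [h4]⟩

theorem LexL.toLex_lt {X Y : List ℕ} (hX : X.length = n) (h : LexL X Y) :
    toLex (fun i : Fin n => X.getD i 0) < toLex (fun i : Fin n => Y.getD i 0) := by
  obtain ⟨Q, x, E, y, F, rfl, rfl, h3, _⟩ := h
  have hQ : Q.length < n := by rw [← hX]; simp
  refine ⟨⟨Q.length, hQ⟩, ?_, ?_⟩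
  · intro j hj
    have hj' : (j : ℕ) < Q.length := hj
    show (Q ++ x :: E).getD j 0 = (Q ++ y :: F).getD j 0
    rw [List.getD_append _ _ _ _ hj', List.getD_append _ _ _ _ hj']
  · show (Q ++ x :: E).getD Q.length 0 < (Q ++ y :: F).getD Q.length 0
    rw [List.getD_append_right _ _ _ _ le_rfl, List.getD_append_right _ _ _ _ le_rfl]
    simpa using h3

theorem mg_head {a b : ℕ} {e f : List ℕ} (h : a < b) : (mg (a :: e) (b :: f)).head? = some 0 := by
  unfold mg
  rw [show (a :: e).length + (b :: f).length = (e.length + (b :: f).length) + 1 by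
    simp only [List.length_cons]; omega, mgF_lt h]
  rfl

/-- The hitting property. -/
theorem hitting (hc : Inv c) (hs : ∀ x y, c x y = c y x)
    (hno : ¬ ∃ φ : (Fin 4 → ℕ) → (Fin n → ℕ), (∀ u v, toLex u < toLex v →
      toLex (φ u) < toLex (φ v)) ∧ ∀ u v, u ≠ v → c (φ u) (φ v) = false)
    {M : ℕ} (hb : ∀ L ≤ n, ¬ HasClique c L M) {B K : ℕ} {ls : List ℕ} (h4 : ls.length = 4)
    (hpos : ∀ l ∈ ls, 0 < l) (hK : ∀ l ∈ ls, l ≤ K) (hn : B + ls.sum ≤ n) :
    (∃ p ∈ NU4, colS c B (ex K ls p.1) (ex K ls p.2) = true) ∨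
      (∃ p ∈ NU3, colS c B (ex K ls.tail p.1) (ex K ls.tail p.2) = true) := by
  have hK0 : 0 < K := by
    match ls, h4 with
    | l :: ls, _ => exact lt_of_lt_of_le (hpos l (by simp)) (hK l (by simp))
  have hsum : 0 < ls.sum := by
    match ls, h4 with
    | l :: ls, _ => have := hpos l (by simp); simp only [List.sum_cons]; omega
  let f : (Fin 4 → ℕ) → List ℕ := fun u => ex K ls (cds u)
  have fl : ∀ u, (f u).length = ls.sum := fun u => ex_length (by rw [cds_length, h4])
  have fne : ∀ u, f u ≠ [] := fun u => ex_ne_nil (by rw [cds_length, h4]) hsum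
  let φ : (Fin 4 → ℕ) → (Fin n → ℕ) := fun u i => (pre n (B + ls.sum) (st B (f u))).getD i 0
  have hφ : ∀ u v, c (φ u) (φ v) = colS c B (f u) (f v) := by
    intro u v
    show _ = col c (B + (f u).length) _ _
    rw [fl]
    rfl
  have key : ∃ u v : Fin 4 → ℕ, toLex u < toLex v ∧ colS c B (f u) (f v) = true := by
    by_contra hcon
    push Not at hcon
    apply hno
    refine ⟨φ, ?_, ?_⟩
    · intro u v huv
      apply LexL.toLex_lt
      · exact pre_length (by rw [st_length (fne u), fl]) hn
      · apply LexL.pre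
        apply LexL.st
        apply LexL.ex hK0 hpos (by rw [cds_length, h4]) (by rw [cds_length, h4])
        obtain ⟨i, hi, hi'⟩ := huv
        simp only [Pi.toLex_apply] at hi hi'
        have hext : ∀ j : ℕ, j < (i : ℕ) → ext u j = ext v j := by
          intro j hj
          have hjk : j < 4 := hj.trans i.2
          have := hi ⟨j, hjk⟩ hj
          simpa [EH.ext, hjk] using this
        have hlt : ext u i < ext v i := by
          rw [ext_apply, ext_apply]; exact hi'
        have hcode : code (ext u) i < code (ext v) i := code_lt hext hlt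
        have hceq : ∀ j : ℕ, j < (i : ℕ) → code (ext u) j = code (ext v) j := fun j hj =>
          code_congr (fun t ht => hext t (lt_of_le_of_lt ht hj))
        refine ⟨(cds u).take i, 4 * code (ext u) i + i, (cds u).drop (i + 1),
          4 * code (ext v) i + i, (cds v).drop (i + 1), ?_, ?_, by omega, by simp [cds_length]⟩
        · rw [← cds_drop u i.2, List.take_append_drop]
        · rw [cds_take i.2 hceq, ← cds_drop v i.2, List.take_append_drop]
    · intro u v huv
      rw [hφ]
      rcases lt_or_gt_of_ne (show toLex u ≠ toLex v from fun h => huv (toLex.injective h)) with h | h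
      · simpa using hcon u v h
      · rw [colS_symm hs (by rw [fl, fl])]
        simpa using hcon v u h
  obtain ⟨u, v, huv, hcol⟩ := key
  obtain ⟨i, hi, hi'⟩ := huv
  simp only [Pi.toLex_apply] at hi hi'
  have hext : ∀ j : ℕ, j < (i : ℕ) → ext u j = ext v j := by
    intro j hj
    have hjk : j < 4 := hj.trans i.2
    have := hi ⟨j, hjk⟩ hj
    simpa [EH.ext, hjk] using this
  have hlt : ext u i < ext v i := by
    rw [ext_apply, ext_apply]; exact hi'
  have hcode : code (ext u) i < code (ext v) i := code_lt hext hlt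
  have hceq : ∀ j : ℕ, j < (i : ℕ) → code (ext u) j = code (ext v) j := fun j hj =>
    code_congr (fun t ht => hext t (lt_of_le_of_lt ht hj))
  have hcne : ∀ j j' : ℕ, (i : ℕ) ≤ j → 4 * code (ext u) j + j = 4 * code (ext v) j' + j' →
      j < 4 → j' < 4 → False := by
    intro j j' hj h hj4 hj4'
    have h1 : j = j' := by omega
    subst h1
    have h2 : code (ext u) j = code (ext v) j := by omega
    have h3 := code_inj h2 i hj
    omega
  -- split at the first difference
  set a := (cds u).drop i with ha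
  set b := (cds v).drop i with hb'
  set lq := ls.drop i with hlq
  have hpu : (cds u).take i ++ a = cds u := List.take_append_drop _ _
  have hpv : (cds u).take i ++ b = cds v := by
    rw [cds_take i.2 hceq, hb', List.take_append_drop]
  have hls : ls.take i ++ lq = ls := List.take_append_drop _ _
  have la : a.length = 4 - i := by simp [ha, cds_length]
  have lb : b.length = 4 - i := by simp [hb', cds_length]
  have llq : lq.length = 4 - i := by simp [hlq, h4]
  have hi4 : (i : ℕ) < 4 := i.2
  have hKq : ∀ l ∈ lq, l ≤ K := fun l hl => hK l (List.mem_of_mem_drop hl)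
  have hposq : ∀ l ∈ lq, 0 < l := fun l hl => hpos l (List.mem_of_mem_drop hl)
  have hsumq : 0 < lq.sum := by
    have : lq ≠ [] := List.length_pos_iff.1 (by omega)
    match lq, this, hposq with
    | l :: lq, _, hposq => have := hposq l (by simp); simp only [List.sum_cons]; omega
  have hsumle : lq.sum ≤ ls.sum := by
    rw [← hls, List.sum_append]; omega
  have sa : Sd a := (cds_sd u).sublist (List.drop_sublist _ _)
  have sb : Sd b := (cds_sd v).sublist (List.drop_sublist _ _)
  have hcol2 : colS c B (ex K lq a) (ex K lq b) = true := by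
    rw [← hcol]
    show _ = colS c B (ex K ls (cds u)) (ex K ls (cds v))
    have e1 : ex K ls (cds u) = ex K (ls.take i) ((cds u).take i) ++ ex K lq a := by
      rw [← ex_append (by simp [cds_length, h4]), hls, hpu]
    have e2 : ex K ls (cds v) = ex K (ls.take i) ((cds u).take i) ++ ex K lq b := by
      rw [← ex_append (by simp [cds_length, h4]), hls, hpv]
    have s1 : Sd (ex K ls (cds u)) := ex_sd hK (cds_sd u)
    have s2 : Sd (ex K ls (cds v)) := ex_sd hK (cds_sd v)
    have l1 : (ex K ls (cds u)).length = ls.sum := fl u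
    rw [e1] at s1 l1 ⊢
    rw [e2] at s2 ⊢
    refine (colS_append hc ?_ (ex_ne_nil (by rw [la, llq]) hsumq) (by rw [l1]; exact hn) s1
      s2).symm
    rw [ex_length (by rw [la, llq]), ex_length (by rw [lb, llq])]
  have hdisj : ∀ x ∈ a, ∀ y ∈ b, x ≠ y := by
    intro x hx y hy hxy
    obtain ⟨j, hj, rfl⟩ := List.mem_iff_getElem.1 hx
    obtain ⟨j', hj', rfl⟩ := List.mem_iff_getElem.1 hy
    simp only [ha, hb', List.getElem_drop] at hxy
    rw [cds_getElem u (by omega), cds_getElem v (by omega)] at hxy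
    exact hcne _ _ (by omega) hxy (by omega) (by omega)
  have hint := mg_interl hdisj
  rw [la, lb] at hint
  have hhead : (mg a b).head? = some 0 := by
    rw [ha, hb', cds_drop u i.2, cds_drop v i.2]
    apply mg_head
    omega
  have Ucase : ∀ pd : List (ℕ × Bool), OkP pd → pd.length = 4 - i →
      mg a b = mg (ul 2 0 0 pd) (ul 2 1 0 pd) → False := by
    intro pd hok hpl hmg
    refine hb (B + lq.sum) (by omega) (U_clique hc hs (ls := lq) (pd := pd) (K := K) hKq hsumq
      (by omega) (by omega) hok (by omega) ?_ M)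
    rw [← hcol2]
    have l0 : (ul 2 0 0 pd).length = 4 - i := by rw [ul_length, hpl]
    have l1 : (ul 2 1 0 pd).length = 4 - i := by rw [ul_length, hpl]
    have hoe : OE (ul 2 0 0 pd) (ul 2 1 0 pd) a b :=
      mg_OE (by rw [l0, la]) (by rw [l1, lb]) (ul_sd (by omega) hok) (ul_sd (by omega) hok) sa sb
        hmg.symm
    apply colS_congr hc
    · rw [ex_length (by rw [l0, llq]), ex_length (by rw [l1, llq])]
    · exact ex_ne_nil (by rw [l0, llq]) hsumq
    · rw [ex_length (by rw [l0, llq])]; omega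
    · exact ex_sd hKq (ul_sd (by omega) hok)
    · exact ex_sd hKq (ul_sd (by omega) hok)
    · exact ex_sd hKq sa
    · exact ex_sd hKq sb
    · exact ex_OE hKq (by rw [l0, llq]) (by rw [l1, llq]) hoe
  have Ncase : ∀ p : List ℕ × List ℕ, p.1.length = 4 - i → p.2.length = 4 - i → Sd p.1 → Sd p.2 →
      mg a b = mg p.1 p.2 → colS c B (ex K lq p.1) (ex K lq p.2) = true := by
    intro p l0 l1 s0 s1 hmg
    rw [← hcol2]
    have hoe : OE p.1 p.2 a b := mg_OE (by rw [l0, la]) (by rw [l1, lb]) s0 s1 sa sb hmg.symm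
    apply colS_congr hc
    · rw [ex_length (by rw [l0, llq]), ex_length (by rw [l1, llq])]
    · exact ex_ne_nil (by rw [l0, llq]) hsumq
    · rw [ex_length (by rw [l0, llq])]; omega
    · exact ex_sd hKq s0
    · exact ex_sd hKq s1
    · exact ex_sd hKq sa
    · exact ex_sd hKq sb
    · exact ex_OE hKq (by rw [l0, llq]) (by rw [l1, llq]) hoe
  have hcases : (i : ℕ) = 0 ∨ (i : ℕ) = 1 ∨ (i : ℕ) = 2 ∨ (i : ℕ) = 3 := by omega
  rcases hcases with h0 | h0 | h0 | h0
  · rw [h0] at hint
    rcases cls4 _ hint hhead with ⟨pd, hpd, hmg⟩ | ⟨p, hp, hmg⟩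
    · obtain ⟨q1, q2⟩ := UG_ok 3 (by simp) pd hpd
      exact (Ucase pd q1 (by omega) hmg).elim
    · left
      obtain ⟨q1, q2, q3, q4⟩ := NU4_ok p hp
      refine ⟨p, hp, ?_⟩
      have := Ncase p (by omega) (by omega) q3 q4 hmg
      rwa [hlq, h0, List.drop_zero] at this
  · rw [h0] at hint
    rcases cls3 _ hint hhead with ⟨pd, hpd, hmg⟩ | ⟨p, hp, hmg⟩
    · obtain ⟨q1, q2⟩ := UG_ok 2 (by simp) pd hpd
      exact (Ucase pd q1 (by omega) hmg).elim
    · right
      obtain ⟨q1, q2, q3, q4⟩ := NU3_ok p hp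
      refine ⟨p, hp, ?_⟩
      have := Ncase p (by omega) (by omega) q3 q4 hmg
      rwa [hlq, h0, List.drop_one] at this
  · rw [h0] at hint
    obtain ⟨pd, hpd, hmg⟩ := cls2 _ hint hhead
    obtain ⟨q1, q2⟩ := UG_ok 1 (by simp) pd hpd
    exact (Ucase pd q1 (by omega) hmg).elim
  · rw [h0] at hint
    obtain ⟨pd, hpd, hmg⟩ := cls1 _ hint hhead
    obtain ⟨q1, q2⟩ := UG_ok 0 (by simp) pd hpd
    exact (Ucase pd q1 (by omega) hmg).elim

end Pool.Agent.Helper18.EH
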