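import Pool.Agent.Helper18.EH.K4.DataZ

/-!
Check of the certificate for twelve levels.
-/

namespace Pool.Agent.Helper18.EH

/-- Bad position lists for twelve levels: the weight sum is larger than allowed. -/
def badZ (J : ℕ) (ds : List ℕ) : Bool :=
  bif Nat.ble J 3 then Nat.ble 2 (ds.map fun d => 2 ^ ((d - 1) / 3)).sum
  else bif Nat.ble J 6 then Nat.ble 3 (ds.map fun d => 2 ^ ((d - 1) / 3)).sum
  else bif Nat.ble J 9 then Nat.ble 5 (ds.map fun d => 2 ^ ((d - 1) / 3)).sum
  else Nat.ble 9 (ds.map fun d => 2 ^ ((d - 1) / 3)).sum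

theorem okZ : okDB 12 badZ dbZ 970 = true := by decide +kernel

end Pool.Agent.Helper18.EH
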