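import Pool.Agent.Helper18.EH.K4.DataD
import Pool.Agent.Helper18.EH.K4.DataX
import Pool.Agent.Helper18.EH.K4.DataY
import Pool.Agent.Helper18.EH.K4.ProofZ

/-!
Growth lemmas for the maximal sizes of cliques on tails of few levels.
-/

namespace Pool.Agent.Helper18.EH

variable {n : ℕ} {c : (Fin n → ℕ) → (Fin n → ℕ) → Bool}

theorem ble_false {a b : ℕ} (h : ¬ a ≤ b) : Nat.ble a b = false := by
  cases hh : Nat.ble a b with
  | false => rfl
  | true => exact absurd (Nat.le_of_ble_eq_true hh) h

/-- Bad lists for four levels. -/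
def badD (_ : ℕ) (ds : List ℕ) : Bool := Nat.ble 2 ds.length

/-- Multiplicity of a position. -/
def cntW (d : ℕ) : ℕ := bif Nat.ble d 3 then 1 else 2

/-- Bad lists for the first window. -/
def badX (J : ℕ) (ds : List ℕ) : Bool :=
  bif Nat.ble J 4 then
    Nat.ble 3 (ds.map cntW).sum ||
      (Nat.ble 2 (ds.map cntW).sum && ds.any fun d => Nat.beq d 2 || Nat.beq d 3 || Nat.ble 5 d)
  else Nat.ble 4 (ds.map cntW).sum

/-- Bad lists for the second window. -/
def badY (J : ℕ) (ds : List ℕ) : Bool :=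
  bif Nat.ble J 3 then Nat.ble 2 (ds.map cntW).sum
  else bif Nat.ble J 5 then
    Nat.ble 3 (ds.map cntW).sum || (Nat.ble 2 (ds.map cntW).sum && ds.any (Nat.beq 3))
  else Nat.ble 4 (ds.map cntW).sum || (Nat.ble 3 (ds.map cntW).sum && ds.any (Nat.beq 3))

theorem okD : okDB 4 badD dbD 11 = true := by decide +kernel

theorem okX : okDB 6 badX dbX 28 = true := by decide +kernel

theorem okY : okDB 6 badY dbY 137 = true := by decide +kernel

theorem HasClique.upto (hc : Inv c) {L L' m : ℕ} (hL : L ≤ L') (hn : L' ≤ n)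
    (h : HasClique c L m) : HasClique c L' m := by
  obtain ⟨d, rfl⟩ := Nat.exists_eq_add_of_le hL
  induction d with
  | zero => exact h
  | succ d ih => exact (ih (by omega) (by omega)).up hc (by omega)

/-- No embedding of `ω ^ 4` with all pairs of colour `false`. -/
def NoF (c : (Fin n → ℕ) → (Fin n → ℕ) → Bool) : Prop :=
  ¬ ∃ φ : (Fin 4 → ℕ) → (Fin n → ℕ), (∀ u v, toLex u < toLex v →
      toLex (φ u) < toLex (φ v)) ∧ ∀ u v, u ≠ v → c (φ u) (φ v) = false

/-- The standing assumptions. -/
structure Good (c : (Fin n → ℕ) → (Fin n → ℕ) → Bool) (M : ℕ) : Prop where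
  inv : Inv c
  sym : ∀ x y, c x y = c y x
  no : NoF c
  bdd : ∀ L ≤ n, ¬ HasClique c L M

variable {M : ℕ}

theorem Good.upto (hg : Good c M) {L L' m : ℕ} (h : HasClique c L m) (hL : L ≤ L')
    (hn : L' ≤ n) : HasClique c L' m := h.upto hg.inv hL hn

theorem sum_map_const_mul (ds : List ℕ) (g : ℕ → ℕ) (m : ℕ) :
    (ds.map fun d => g d * m).sum = (ds.map g).sum * m := by
  induction ds with
  | nil => simp
  | cons d ds ih => simp only [List.map_cons, List.sum_cons, ih]; ring

theorem Good.dbl (hg : Good c M) {B m : ℕ} (h : HasClique c (B + 1) m) (hn : B + 4 ≤ n) :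
    HasClique c (B + 4) (2 * m) := by
  by_contra hneg
  refine okDB_sound hg.inv hg.sym hg.no hg.bdd (B := B) (N := 4) (by norm_num) hn (fun _ => 1 * m)
    (fun d h1 h2 => by rw [one_mul]; exact hg.upto h (by omega) (by omega)) (bad := badD) ?_ okD
  intro J ds hJ hds hb hcl
  apply hneg
  rw [sum_map_const_mul] at hcl
  refine (hg.upto hcl (show B + J ≤ B + 4 by omega) hn).mono ?_
  apply Nat.mul_le_mul_right
  have := Nat.le_of_ble_eq_true hb
  simpa using this

theorem Good.dbls (hg : Good c M) {B m : ℕ} (h : HasClique c (B + 1) m) :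
    ∀ j, B + 1 + 3 * j ≤ n → HasClique c (B + 1 + 3 * j) (2 ^ j * m)
  | 0, _ => by simpa using h
  | j + 1, hn => by
    have ih := hg.dbls h j (by omega)
    have := hg.dbl (B := B + 3 * j) (m := 2 ^ j * m) (by convert ih using 1; ring) (by omega)
    convert this using 1
    · ring
    · ring

theorem Good.dblq (hg : Good c M) {L j m k L' : ℕ} (h : HasClique c L m) (hL : 1 ≤ L)
    (h1 : L + 3 * j ≤ L') (h2 : L' ≤ n) (h3 : k ≤ 2 ^ j * m) : HasClique c L' k := by
  obtain ⟨B, rfl⟩ := Nat.exists_eq_add_of_le' hL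
  exact (hg.upto (hg.dbls h j (by omega)) h1 h2).mono h3

theorem Good.wZ (hg : Good c M) {B m : ℕ} (h : HasClique c (B + 1) m) (hn : B + 12 ≤ n) :
    HasClique c (B + 12) (9 * m) := by
  by_contra hneg
  refine okDB_sound hg.inv hg.sym hg.no hg.bdd (B := B) (N := 12) (by norm_num) hn
    (fun d => 2 ^ ((d - 1) / 3) * m)
    (fun d h1 h2 => hg.dblq (j := (d - 1) / 3) h (by omega) (by omega) (by omega) le_rfl)
    (bad := badZ) ?_ okZ
  intro J ds hJ hds hb hcl
  apply hneg
  rw [sum_map_const_mul] at hcl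
  unfold badZ at hb
  by_cases hJ3 : J ≤ 3
  · rw [Nat.ble_eq_true_of_le hJ3, cond_true] at hb
    have := Nat.mul_le_mul_right m (Nat.le_of_ble_eq_true hb)
    exact hg.dblq (j := 3) (hg.upto hcl (show B + J ≤ B + 3 by omega) (by omega)) (by omega)
      (by omega) hn (by omega)
  rw [ble_false hJ3, cond_false] at hb
  by_cases hJ6 : J ≤ 6
  · rw [Nat.ble_eq_true_of_le hJ6, cond_true] at hb
    have := Nat.mul_le_mul_right m (Nat.le_of_ble_eq_true hb)
    exact hg.dblq (j := 2) (hg.upto hcl (show B + J ≤ B + 6 by omega) (by omega)) (by omega)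
      (by omega) hn (by omega)
  rw [ble_false hJ6, cond_false] at hb
  by_cases hJ9 : J ≤ 9
  · rw [Nat.ble_eq_true_of_le hJ9, cond_true] at hb
    have := Nat.mul_le_mul_right m (Nat.le_of_ble_eq_true hb)
    exact hg.dblq (j := 1) (hg.upto hcl (show B + J ≤ B + 9 by omega) (by omega)) (by omega)
      (by omega) hn (by omega)
  rw [ble_false hJ9, cond_false] at hb
  have := Nat.mul_le_mul_right m (Nat.le_of_ble_eq_true hb)
  exact (hg.upto hcl (show B + J ≤ B + 12 by omega) hn).mono this

theorem cnt_le {μ : ℕ → ℕ} {v : ℕ} (hμ : ∀ d, 1 ≤ d → cntW d * v ≤ μ d) :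
    ∀ {ds : List ℕ}, (∀ d ∈ ds, 1 ≤ d) → (ds.map cntW).sum * v ≤ (ds.map μ).sum
  | [], _ => by simp
  | d :: ds, h => by
    have h1 := hμ d (h d (by simp))
    have h2 := cnt_le hμ (ds := ds) (fun d' hd' => h d' (by simp [hd']))
    simp only [List.map_cons, List.sum_cons, add_mul]
    omega

theorem cnt_le' {μ : ℕ → ℕ} {v e : ℕ} {p : ℕ → Bool} (hμ : ∀ d, 1 ≤ d → cntW d * v ≤ μ d)
    (hp : ∀ d, 1 ≤ d → p d = true → cntW d * v + e ≤ μ d) :
    ∀ {ds : List ℕ}, (∀ d ∈ ds, 1 ≤ d) → ds.any p = true →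
      (ds.map cntW).sum * v + e ≤ (ds.map μ).sum
  | [], _, h => by simp at h
  | d :: ds, h, ha => by
    simp only [List.map_cons, List.sum_cons, add_mul]
    rw [List.any_cons, Bool.or_eq_true] at ha
    rcases ha with ha | ha
    · have h1 := hp d (h d (by simp)) ha
      have h2 := cnt_le hμ (ds := ds) (fun d' hd' => h d' (by simp [hd']))
      omega
    · have h1 := hμ d (h d (by simp))
      have h2 := cnt_le' hμ hp (ds := ds) (fun d' hd' => h d' (by simp [hd'])) ha
      omega

theorem Good.wX (hg : Good c M) {B v v' : ℕ} (hn : B + 6 ≤ n) (h1 : HasClique c (B + 1) v)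
    (h2 : HasClique c (B + 2) v') (hv : v < v') (h4 : ¬ HasClique c (B + 4) (2 * v + 1)) :
    HasClique c (B + 6) (4 * v) := by
  by_contra hneg
  have hv0 : 0 < v := by
    rcases Nat.eq_zero_or_pos v with rfl | h
    · exact absurd ((hasClique_one (c := c) (B + 6)).mono (by omega)) hneg
    · exact h
  let μ : ℕ → ℕ := fun d => if d = 1 then v else if d ≤ 3 then v' else if d = 4 then 2 * v
    else 2 * v'
  have hμ : ∀ d, 1 ≤ d → cntW d * v ≤ μ d := by
    intro d hd
    simp only [μ]
    by_cases h3 : d ≤ 3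
    · rw [show cntW d = 1 by unfold cntW; rw [Nat.ble_eq_true_of_le h3]; rfl]
      split_ifs <;> omega
    · rw [show cntW d = 2 by unfold cntW; rw [ble_false h3]; rfl]
      split_ifs <;> omega
  have hp : ∀ d, 1 ≤ d → (Nat.beq d 2 || Nat.beq d 3 || Nat.ble 5 d) = true →
      cntW d * v + 1 ≤ μ d := by
    intro d hd hd'
    rw [Bool.or_eq_true, Bool.or_eq_true] at hd'
    simp only [μ]
    rcases hd' with (hd' | hd') | hd'
    · rw [Nat.eq_of_beq_eq_true hd', show cntW 2 = 1 from rfl]
      simp only [OfNat.ofNat_ne_one, if_false]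
      norm_num; omega
    · rw [Nat.eq_of_beq_eq_true hd', show cntW 3 = 1 from rfl]
      norm_num; omega
    · have := Nat.le_of_ble_eq_true hd'
      rw [show cntW d = 2 by unfold cntW; rw [ble_false (show ¬ d ≤ 3 by omega)]; rfl]
      split_ifs <;> omega
  refine okDB_sound hg.inv hg.sym hg.no hg.bdd (B := B) (N := 6) (by norm_num) hn μ ?_
    (bad := badX) ?_ okX
  · intro d hd hd'
    have d4 := hg.dbl h1 (by omega)
    have d5 := hg.dbl (B := B + 1) h2 (by omega)
    simp only [μ]
    split_ifs with e1 e2 e3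
    · subst e1; exact h1
    · exact hg.upto h2 (by omega) (by omega)
    · subst e3; exact d4
    · exact hg.upto d5 (by omega) (by omega)
  · intro J ds hJ hds hb hcl
    have q0 := cnt_le hμ (ds := ds) (fun d hd => (hds d hd).1)
    unfold badX at hb
    by_cases hJ4 : J ≤ 4
    · rw [Nat.ble_eq_true_of_le hJ4, cond_true, Bool.or_eq_true] at hb
      apply h4
      refine (hg.upto hcl (show B + J ≤ B + 4 by omega) (by omega)).mono ?_
      rcases hb with hb | hb
      · have := Nat.mul_le_mul_right v (Nat.le_of_ble_eq_true hb)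
        omega
      · rw [Bool.and_eq_true] at hb
        have := Nat.mul_le_mul_right v (Nat.le_of_ble_eq_true hb.1)
        have := cnt_le' hμ hp (ds := ds) (fun d hd => (hds d hd).1) hb.2
        omega
    · rw [ble_false hJ4, cond_false] at hb
      have := Nat.mul_le_mul_right v (Nat.le_of_ble_eq_true hb)
      exact hneg ((hg.upto hcl (show B + J ≤ B + 6 by omega) hn).mono (by omega))

theorem Good.wY (hg : Good c M) {B v v' : ℕ} (hn : B + 6 ≤ n) (h1 : HasClique c (B + 1) v)
    (h3 : HasClique c (B + 3) v') (hv : v < v') (h4 : ¬ HasClique c (B + 4) (2 * v + 1)) :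
    HasClique c (B + 5) (v + v') ∨ HasClique c (B + 6) (2 * v + v') := by
  by_contra hneg
  push Not at hneg
  obtain ⟨hn5, hn6⟩ := hneg
  have hv2 : ¬ HasClique c (B + 3) (2 * v) := by
    intro h
    refine hn6 ((hg.dbl (B := B + 2) h hn).mono ?_)
    have : v' ≤ 2 * v := by
      by_contra hcon
      exact h4 ((hg.upto h3 (show B + 3 ≤ B + 4 by omega) (by omega)).mono (by omega))
    omega
  have hvv : v' < 2 * v := by
    by_contra hcon
    exact hv2 (h3.mono (by omega))
  let μ : ℕ → ℕ := fun d => if d ≤ 2 then v else if d = 3 then v' else 2 * v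
  have hμ : ∀ d, 1 ≤ d → cntW d * v ≤ μ d := by
    intro d hd
    simp only [μ]
    by_cases h3 : d ≤ 3
    · rw [show cntW d = 1 by unfold cntW; rw [Nat.ble_eq_true_of_le h3]; rfl]
      split_ifs <;> omega
    · rw [show cntW d = 2 by unfold cntW; rw [ble_false h3]; rfl]
      split_ifs <;> omega
  have hp : ∀ d, 1 ≤ d → Nat.beq 3 d = true → cntW d * v + (v' - v) ≤ μ d := by
    intro d hd hd'
    rw [← Nat.eq_of_beq_eq_true hd', show cntW 3 = 1 from rfl]
    simp only [μ]
    norm_num; omega
  refine okDB_sound hg.inv hg.sym hg.no hg.bdd (B := B) (N := 6) (by norm_num) hn μ ?_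
    (bad := badY) ?_ okY
  · intro d hd hd'
    have d4 := hg.dbl h1 (by omega)
    simp only [μ]
    split_ifs with e1 e2
    · exact hg.upto h1 (by omega) (by omega)
    · subst e2; exact h3
    · exact hg.upto d4 (by omega) (by omega)
  · intro J ds hJ hds hb hcl
    have q0 := cnt_le hμ (ds := ds) (fun d hd => (hds d hd).1)
    unfold badY at hb
    by_cases hJ3 : J ≤ 3
    · rw [Nat.ble_eq_true_of_le hJ3, cond_true] at hb
      have := Nat.mul_le_mul_right v (Nat.le_of_ble_eq_true hb)
      exact hv2 ((hg.upto hcl (show B + J ≤ B + 3 by omega) (by omega)).mono (by omega))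
    rw [ble_false hJ3, cond_false] at hb
    by_cases hJ5 : J ≤ 5
    · rw [Nat.ble_eq_true_of_le hJ5, cond_true, Bool.or_eq_true] at hb
      refine hn5 ((hg.upto hcl (show B + J ≤ B + 5 by omega) (by omega)).mono ?_)
      rcases hb with hb | hb
      · have := Nat.mul_le_mul_right v (Nat.le_of_ble_eq_true hb)
        omega
      · rw [Bool.and_eq_true] at hb
        have := Nat.mul_le_mul_right v (Nat.le_of_ble_eq_true hb.1)
        have := cnt_le' hμ hp (ds := ds) (fun d hd => (hds d hd).1) hb.2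
        omega
    · rw [ble_false hJ5, cond_false,
        Bool.or_eq_true] at hb
      refine hn6 ((hg.upto hcl (show B + J ≤ B + 6 by omega) hn).mono ?_)
      rcases hb with hb | hb
      · have := Nat.mul_le_mul_right v (Nat.le_of_ble_eq_true hb)
        omega
      · rw [Bool.and_eq_true] at hb
        have := Nat.mul_le_mul_right v (Nat.le_of_ble_eq_true hb.1)
        have := cnt_le' hμ hp (ds := ds) (fun d hd => (hds d hd).1) hb.2
        omega

end Pool.Agent.Helper18.EH
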