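import Pool.Agent.Helper18.EH.K4.Super
import Pool.Agent.Helper18.EH.K4.Windows

/-!
Lower bounds for `ω ^ n → (ω ^ 4, m)²`.
-/

namespace Pool.Agent.Helper18.EH

open Ordinal

theorem HasClique.tuples {n m : ℕ} {c : (Fin n → ℕ) → (Fin n → ℕ) → Bool}
    (h : HasClique c n m) :
    ∃ K : Finset (Fin n → ℕ), K.card = m ∧ ∀ x ∈ K, ∀ y ∈ K, x ≠ y → c x y = true := by
  obtain ⟨K, hK, h1, h2⟩ := h
  have hpre : ∀ x : List ℕ, pre n n x = x := by
    intro x
    unfold pre
    simp
  let F : List ℕ → (Fin n → ℕ) := fun x i => x.getD i 0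
  have hF : Set.InjOn F K := by
    intro x hx y hy hxy
    have lx := (h1 x hx).1
    have ly := (h1 y hy).1
    apply List.ext_getElem (by rw [lx, ly])
    intro i hi hi'
    have := congrFun hxy ⟨i, by omega⟩
    simp only [F] at this
    rwa [List.getD_eq_getElem _ _ hi, List.getD_eq_getElem _ _ hi'] at this
  refine ⟨K.image F, ?_, ?_⟩
  · rw [Finset.card_image_of_injOn hF, hK]
  · intro x hx y hy hxy
    obtain ⟨a, ha, rfl⟩ := Finset.mem_image.1 hx
    obtain ⟨b, hb, rfl⟩ := Finset.mem_image.1 hy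
    have := h2 a ha b hb (fun e => hxy (by rw [e]))
    unfold col cl at this
    rwa [hpre, hpre] at this

/-- It suffices to refute good colourings. -/
theorem arrow_of_good {n m : ℕ} (h : ∀ c : (Fin n → ℕ) → (Fin n → ℕ) → Bool, Good c m → False) :
    Arrow (ω ^ n) (ω ^ 4) m := by
  apply arrow_of_alt
  intro c hc hs
  by_contra hneg
  unfold AltN at hneg
  push Not at hneg
  obtain ⟨hn1, hn2⟩ := hneg
  apply h c
  refine ⟨hc, hs, ?_, ?_⟩
  · rintro ⟨φ, h1, h2⟩
    obtain ⟨u, v, huv, hcon⟩ := hn1 φ h1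
    exact hcon (h2 u v huv)
  · intro L hL hcl
    obtain ⟨K, hK, hKc⟩ := (hcl.upto hc hL le_rfl).tuples
    obtain ⟨x, hx, y, hy, hxy, hcon⟩ := hn2 K hK
    exact hcon (hKc x hx y hy hxy)

/-- `ω ^ 12 → (ω ^ 4, 9)²`. -/
theorem arrow_twelve : Arrow (ω ^ 12) (ω ^ 4) 9 := by
  apply arrow_of_good
  intro c hg
  exact hg.bdd 12 le_rfl (by simpa using hg.wZ (B := 0) (hasClique_one 1) (by norm_num))

open Classical in
/-- The largest size of a clique on the tail of `L` levels. -/
noncomputable def ww {n : ℕ} (c : (Fin n → ℕ) → (Fin n → ℕ) → Bool) (M L : ℕ) : ℕ :=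
  Nat.findGreatest (HasClique c L) M

theorem hasClique_zero {n : ℕ} {c : (Fin n → ℕ) → (Fin n → ℕ) → Bool} (L : ℕ) :
    HasClique c L 0 := (hasClique_one L).mono (Nat.zero_le 1)

theorem Good.le_ww {n M : ℕ} {c : (Fin n → ℕ) → (Fin n → ℕ) → Bool} (hg : Good c M)
    {L m : ℕ} (hL : L ≤ n) : HasClique c L m ↔ m ≤ ww c M L := by
  classical
  unfold ww
  constructor
  · intro h
    apply Nat.le_findGreatest _ h
    by_contra hcon
    exact hg.bdd L hL (h.mono (by omega))
  · intro h
    exact (Nat.findGreatest_spec (P := HasClique c L) (Nat.zero_le M) (hasClique_zero L)).mono h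

/-- `ω ^ 55 → (ω ^ 4, 2 ^ 18 + 1)²`. -/
theorem arrow_55 : Arrow (ω ^ 55) (ω ^ 4) (2 ^ 18 + 1) := by
  apply arrow_of_good
  intro c hg
  set M := 2 ^ 18 + 1 with hM
  let w : ℕ → ℕ := ww c M
  have hw : ∀ {L m : ℕ}, L ≤ 55 → (HasClique c L m ↔ m ≤ w L) := fun hL => hg.le_ww hL
  have w1 : 1 ≤ w 1 := (hw (by norm_num)).1 (hasClique_one 1)
  have wn : w 55 ≤ 2 ^ 18 := by
    by_contra hcon
    exact hg.bdd 55 le_rfl ((hw le_rfl).2 (by omega))
  have up : ∀ L, L + 1 ≤ 55 → w L ≤ w (L + 1) := fun L hL =>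
    (hw hL).1 (((hw (by omega)).2 le_rfl).up hg.inv hL)
  have db : ∀ B, B + 4 ≤ 55 → 2 * w (B + 1) ≤ w (B + 4) := fun B hB =>
    (hw hB).1 (hg.dbl ((hw (by omega)).2 le_rfl) hB)
  have zz : ∀ B, B + 12 ≤ 55 → 9 * w (B + 1) ≤ w (B + 12) := fun B hB =>
    (hw hB).1 (hg.wZ ((hw (by omega)).2 le_rfl) hB)
  have xx : ∀ B, B + 6 ≤ 55 → w (B + 1) < w (B + 2) → w (B + 4) ≤ 2 * w (B + 1) →
      4 * w (B + 1) ≤ w (B + 6) := fun B hB h1 h2 =>
    (hw hB).1 (hg.wX hB ((hw (by omega)).2 le_rfl) ((hw (by omega)).2 le_rfl) h1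
      (fun h => by have := (hw (by omega)).1 h; omega))
  have yy : ∀ B, B + 6 ≤ 55 → w (B + 1) < w (B + 3) → w (B + 4) ≤ 2 * w (B + 1) →
      w (B + 1) + w (B + 3) ≤ w (B + 5) ∨ 2 * w (B + 1) + w (B + 3) ≤ w (B + 6) := by
    intro B hB h1 h2
    rcases hg.wY hB ((hw (by omega)).2 le_rfl) ((hw (by omega)).2 le_rfl) h1
      (fun h => by have := (hw (by omega)).1 h; omega) with h | h
    · exact Or.inl ((hw (by omega)).1 h)
    · exact Or.inr ((hw (by omega)).1 h)
  -- the values at the levels `3 j + 1`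
  have d1 := db 0 (by norm_num)
  have d2 := db 3 (by norm_num)
  have d3 := db 6 (by norm_num)
  have d4 := db 9 (by norm_num)
  have d5 := db 12 (by norm_num)
  have d6 := db 15 (by norm_num)
  have d7 := db 18 (by norm_num)
  have d8 := db 21 (by norm_num)
  have d9 := db 24 (by norm_num)
  have d10 := db 27 (by norm_num)
  have d11 := db 30 (by norm_num)
  have d12 := db 33 (by norm_num)
  have d13 := db 36 (by norm_num)
  have d14 := db 39 (by norm_num)
  have d15 := db 42 (by norm_num)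
  have d16 := db 45 (by norm_num)
  have d17 := db 48 (by norm_num)
  have d18 := db 51 (by norm_num)
  norm_num at d1 d2 d3 d4 d5 d6 d7 d8 d9 d10 d11 d12 d13 d14 d15 d16 d17 d18 wn
  have v10 : w 10 = 2 ^ 3 := by norm_num; omega
  have v13 : w 13 = 2 ^ 4 := by norm_num; omega
  have v16 : w 16 = 2 ^ 5 := by norm_num; omega
  have v19 : w 19 = 2 ^ 6 := by norm_num; omega
  have v22 : w 22 = 2 ^ 7 := by norm_num; omega
  have v25 : w 25 = 2 ^ 8 := by norm_num; omega
  have v28 : w 28 = 2 ^ 9 := by norm_num; omega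
  have v31 : w 31 = 2 ^ 10 := by norm_num; omega
  have v34 : w 34 = 2 ^ 11 := by norm_num; omega
  have v37 : w 37 = 2 ^ 12 := by norm_num; omega
  have v40 : w 40 = 2 ^ 13 := by norm_num; omega
  have v43 : w 43 = 2 ^ 14 := by norm_num; omega
  have v46 : w 46 = 2 ^ 15 := by norm_num; omega
  have v49 : w 49 = 2 ^ 16 := by norm_num; omega
  have v52 : w 52 = 2 ^ 17 := by norm_num; omega
  have v55 : w 55 = 2 ^ 18 := by norm_num; omega
  norm_num at v10 v13 v16 v19 v22 v25 v28 v31 v34 v37 v40 v43 v46 v49 v52 v55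
  clear d1 d2 d3 d4 d5 d6 d7 d8 d9 d10 d11 d12 d13 d14 d15 d16 d17 d18
  -- `b 3 ≥ 9 / 8`
  have z12 := zz 0 (by norm_num)
  norm_num at z12
  have b3 : 9 ≤ w 12 := by omega
  -- either `a 9 > 1`
  have a9 : w 28 < w 29 := by
    by_contra hcon
    have m2 : ∀ B, B + 4 ≤ 55 → 2 * w (B + 1) ≤ w (B + 4) := db
    have e29 := m2 25 (by norm_num)
    have e26 := m2 22 (by norm_num)
    have e23 := m2 19 (by norm_num)
    have e20 := m2 16 (by norm_num)
    have e17 := m2 13 (by norm_num)
    have e14 := m2 10 (by norm_num)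
    norm_num at e29 e26 e23 e20 e17 e14
    have u10 := up 10 (by norm_num)
    have u13 := up 13 (by norm_num)
    have u16 := up 16 (by norm_num)
    norm_num at u10 u13 u16
    have y10 := yy 9 (by norm_num)
    have y13 := yy 12 (by norm_num)
    have z29 := zz 17 (by norm_num)
    norm_num at y10 y13 z29
    have k1 : w 11 = 8 := by omega
    have k2 : w 14 = 16 := by omega
    have k3 : w 17 = 32 := by omega
    have q1 := y10 (by omega) (by omega)
    have q2 : 25 ≤ w 15 := by omega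
    have q3 := y13 (by omega) (by omega)
    have q4 : 57 ≤ w 18 := by omega
    omega
  have a10 := db 28 (by norm_num)
  have a11 := db 31 (by norm_num)
  norm_num at a10 a11
  have a12 := db 34 (by norm_num)
  have a13 := db 37 (by norm_num)
  have a14 := db 40 (by norm_num)
  norm_num at a12 a13 a14
  have b10 := xx 27 (by norm_num) (by simpa using a9) (by norm_num; omega)
  have b11 := xx 30 (by norm_num) (by norm_num; omega) (by norm_num; omega)
  have b12 := xx 33 (by norm_num) (by norm_num; omega) (by norm_num; omega)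
  have b13 := xx 36 (by norm_num) (by norm_num; omega) (by norm_num; omega)
  norm_num at b10 b11 b12 b13
  have u33 := up 33 (by norm_num)
  have u36 := up 36 (by norm_num)
  have u39 := up 39 (by norm_num)
  have u42 := up 42 (by norm_num)
  norm_num at u33 u36 u39 u42
  have y33 := yy 32 (by norm_num) (by norm_num; omega) (by norm_num; omega)
  norm_num at y33
  have y36 := yy 35 (by norm_num) (by norm_num; omega) (by norm_num; omega)
  norm_num at y36
  have y39 := yy 38 (by norm_num) (by norm_num; omega) (by norm_num; omega)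
  norm_num at y39
  have z44 := zz 43 (by norm_num)
  norm_num at z44
  omega

end Pool.Agent.Helper18.EH
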