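import Pool.Agent.Helper18.EH.K4.Colour

/-!
Replacing the last coordinates of the members of a template by cliques.
-/

namespace Pool.Agent.Helper18.EH

/-- The first `k` entries of `e` as scaled coordinates, followed by a copy of `w` in the slot of
the entry number `k`. -/
def rl (N k : ℕ) (e w : List ℕ) : List ℕ :=
  (e.take k).map (N * ·) ++ w.map (fun a => N * e.getD k 0 + 1 + a)

/-- The last entry of `e` is replaced by `B + 1` coordinates. -/
def st (B : ℕ) (e : List ℕ) : List ℕ := rl (B + 2) (e.length - 1) e (List.range (B + 1))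

theorem rl_length {N k : ℕ} {e w : List ℕ} (hk : k ≤ e.length) :
    (rl N k e w).length = k + w.length := by
  simp [rl, hk]

theorem rl_getElem {N k : ℕ} {e w : List ℕ} (hk : k < e.length) {i : ℕ}
    (hi : i < (rl N k e w).length) :
    (rl N k e w)[i] = N * e.getD (min i k) 0 + (if i < k then 0 else 1 + w.getD (i - k) 0) := by
  have hl : ((e.take k).map (N * ·)).length = k := by simp; omega
  have hi' := hi
  rw [rl_length hk.le] at hi'
  have h0 : (rl N k e w)[i] = ((e.take k).map (N * ·) ++
      w.map (fun a => N * e.getD k 0 + 1 + a))[i]'(show i < ((e.take k).map (N * ·) ++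
      w.map (fun a => N * e.getD k 0 + 1 + a)).length from hi) := rfl
  rw [h0]
  split_ifs with h
  · rw [List.getElem_append_left (by rw [hl]; exact h)]
    simp only [List.getElem_map, List.getElem_take, add_zero]
    rw [min_eq_left h.le, List.getD_eq_getElem _ _ (h.trans hk)]
  · have h2 : i - k < w.length := by omega
    rw [List.getElem_append_right (by rw [hl]; exact not_lt.1 h)]
    simp only [List.getElem_map, hl]
    rw [min_eq_right (not_lt.1 h), List.getD_eq_getElem _ _ h2, add_assoc]

theorem getD_lt_of_sd {e : List ℕ} (he : Sd e) {i j : ℕ} (hij : i < j) (hj : j < e.length) :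
    e.getD i 0 < e.getD j 0 := by
  rw [List.getD_eq_getElem _ _ (hij.trans hj), List.getD_eq_getElem _ _ hj]
  exact (he.getElem_lt_iff _ _).2 hij

theorem getD_le_of_sd {e : List ℕ} (he : Sd e) {i j : ℕ} (hij : i ≤ j) (hj : j < e.length) :
    e.getD i 0 ≤ e.getD j 0 := by
  rcases Nat.lt_or_eq_of_le hij with h | h
  · exact (getD_lt_of_sd he h hj).le
  · rw [h]

theorem getD_mem' {e : List ℕ} {i : ℕ} (hi : i < e.length) : e.getD i 0 ∈ e := by
  rw [List.getD_eq_getElem _ _ hi]
  exact List.getElem_mem hi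

theorem rl_sd {N k : ℕ} {e w : List ℕ} (hk : k < e.length) (he : Sd e) (hw : Sd w) (hN : 0 < N) :
    Sd (rl N k e w) := by
  apply Sd.append
  · exact Sd.map (he.sublist (List.take_sublist _ _))
      (fun a b h => Nat.mul_lt_mul_of_pos_left h hN)
  · exact hw.map (fun a b h => by show _ + 1 + a < _ + 1 + b; omega)
  · intro a ha b hb
    obtain ⟨a', ha', rfl⟩ := List.mem_map.1 ha
    obtain ⟨b', _, rfl⟩ := List.mem_map.1 hb
    obtain ⟨i, hi, rfl⟩ := List.mem_iff_getElem.1 ha'
    simp only [List.length_take] at hi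
    simp only [List.getElem_take]
    have h1 := getD_lt_of_sd he (i := i) (j := k) (by omega) hk
    rw [List.getD_eq_getElem _ _ (show i < e.length by omega)] at h1
    have := Nat.mul_le_mul_left N h1.le
    omega

/-- No entry of `f` lies between the entries number `k` and the last one of `e`. -/
def Priv (e : List ℕ) (k : ℕ) (f : List ℕ) : Prop :=
  ∀ y ∈ f, y < e.getD k 0 ∨ e.getD (e.length - 1) 0 < y

theorem rl_OE {B J N M k l : ℕ} {e f w w' : List ℕ} (he : e.length = J) (hf : f.length = J)
    (se : Sd e) (sf : Sd f) (hk : k < J) (hl : l < J)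
    (hw : w.length = B + J - k) (hw' : w'.length = B + J - l)
    (hwN : ∀ a ∈ w, 1 + a < N) (hwN' : ∀ a ∈ w', 1 + a < N) (hN : 0 < N) (hM : B + 1 < M)
    (p1 : Priv e k f) (p2 : Priv f l e) :
    OE (rl N k e w) (rl N l f w') (rl M (J - 1) e (List.range (B + 1)))
      (rl M (J - 1) f (List.range (B + 1))) := by
  have hJ : J - 1 < J := by omega
  refine ⟨?_, ?_, ?_⟩
  · rw [rl_length (by omega), rl_length (by omega), hw]; simp; omega
  · rw [rl_length (by omega), rl_length (by omega), hw']; simp; omega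
  intro i j hi hj hi' hj'
  rw [rl_getElem (he ▸ hk) hi, rl_getElem (hf ▸ hl) hj, rl_getElem (he ▸ hJ) hi',
    rl_getElem (hf ▸ hJ) hj']
  have hib : i < B + J := by
    rw [rl_length (by omega), hw] at hi; omega
  have hjb : j < B + J := by
    rw [rl_length (by omega), hw'] at hj; omega
  -- offsets are small
  have o1 : (if i < k then 0 else 1 + w.getD (i - k) 0) < N := by
    split_ifs
    · exact hN
    · exact hwN _ (getD_mem' (by omega))
  have o2 : (if j < l then 0 else 1 + w'.getD (j - l) 0) < N := by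
    split_ifs
    · exact hN
    · exact hwN' _ (getD_mem' (by omega))
  have o3 : ∀ t, t < B + J →
      (if t < J - 1 then 0 else 1 + (List.range (B + 1)).getD (t - (J - 1)) 0) < M := by
    intro t ht
    split_ifs
    · omega
    · rw [List.getD_eq_getElem _ _ (by simp; omega), List.getElem_range]; omega
  rw [mul_add_lt_iff o1 o2, mul_add_lt_iff o2 o1, mul_add_lt_iff (o3 i hib) (o3 j hjb),
    mul_add_lt_iff (o3 j hjb) (o3 i hib)]
  have m1 : min i (J - 1) < e.length := by omega
  have m2 : min j (J - 1) < f.length := by omega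
  -- the two cases for each side
  rcases Nat.lt_or_ge i k with hik | hik <;> rcases Nat.lt_or_ge j l with hjl | hjl
  · have a1 : min i k = i := min_eq_left hik.le
    have a2 : min j l = j := min_eq_left hjl.le
    have a3 : min i (J - 1) = i := min_eq_left (by omega)
    have a4 : min j (J - 1) = j := min_eq_left (by omega)
    rw [a1, a2, a3, a4, if_pos hik, if_pos hjl, if_pos (show i < J - 1 by omega),
      if_pos (show j < J - 1 by omega)]
    exact ⟨Iff.rfl, Iff.rfl⟩
  · -- `j` in the last run of `f`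
    have a1 : min i k = i := min_eq_left hik.le
    have a2 : min j l = l := min_eq_right hjl
    have a3 : min i (J - 1) = i := min_eq_left (by omega)
    rw [a1, a2, a3]
    have h1 := p2 _ (getD_mem' (show i < e.length by omega))
    have h2 := getD_le_of_sd sf (show l ≤ min j (J - 1) by omega) m2
    have h3 := getD_le_of_sd sf (show min j (J - 1) ≤ f.length - 1 by omega) (by omega)
    constructor <;> constructor <;> rintro (h4 | ⟨h4, _⟩) <;> rcases h1 with h1 | h1 <;>
      (left; omega)
  · have a1 : min i k = k := min_eq_right hik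
    have a2 : min j l = j := min_eq_left hjl.le
    have a4 : min j (J - 1) = j := min_eq_left (by omega)
    rw [a1, a2, a4]
    have h1 := p1 _ (getD_mem' (show j < f.length by omega))
    have h2 := getD_le_of_sd se (show k ≤ min i (J - 1) by omega) m1
    have h3 := getD_le_of_sd se (show min i (J - 1) ≤ e.length - 1 by omega) (by omega)
    constructor <;> constructor <;> rintro (h4 | ⟨h4, _⟩) <;> rcases h1 with h1 | h1 <;>
      (left; omega)
  · have a1 : min i k = k := min_eq_right hik
    have a2 : min j l = l := min_eq_right hjl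
    rw [a1, a2]
    have h1 := p1 _ (getD_mem' (show l < f.length by omega))
    have h1' := p2 _ (getD_mem' (show k < e.length by omega))
    have h2 := getD_le_of_sd se (show k ≤ min i (J - 1) by omega) m1
    have h3 := getD_le_of_sd se (show min i (J - 1) ≤ e.length - 1 by omega) (by omega)
    have h4 := getD_le_of_sd sf (show l ≤ min j (J - 1) by omega) m2
    have h5 := getD_le_of_sd sf (show min j (J - 1) ≤ f.length - 1 by omega) (by omega)
    constructor <;> constructor <;> rintro (h6 | ⟨h6, _⟩) <;> rcases h1 with h1 | h1 <;>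
      rcases h1' with h1' | h1' <;> (left; omega)

variable {n : ℕ} {c : (Fin n → ℕ) → (Fin n → ℕ) → Bool}

variable (c) in
/-- The colour of a pair of window lists. -/
def colS (B : ℕ) (e f : List ℕ) : Bool := col c (B + e.length) (st B e) (st B f)

theorem col_same (hc : Inv c) {B J N k : ℕ} {e w w' : List ℕ} (hn : B + J ≤ n)
    (he : e.length = J) (se : Sd e) (hk : k < J) (hw : w.length = B + J - k)
    (hw' : w'.length = B + J - k) (sw : Sd w) (sw' : Sd w') (hN : 0 < N) :
    col c (B + J) (rl N k e w) (rl N k e w') = col c (B + J - k) w w' := by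
  unfold rl
  apply col_append hc _ hn (by simp [hw]) (by simp [hw'])
  · exact rl_sd (he ▸ hk) se sw hN
  · exact rl_sd (he ▸ hk) se sw' hN
  · exact sw
  · exact sw'
  · exact (OE.of_map (fun a b h => by show _ + 1 + a < _ + 1 + b; omega)).symm
  · simp only [List.length_map, List.length_take]; omega

theorem realize_aux (hc : Inv c) (hs : ∀ x y, c x y = c y x) {B J N : ℕ} (hn : B + J ≤ n)
    (hN : 0 < N) (F : List ℕ × ℕ → Finset (List ℕ)) : ∀ (T : List (List ℕ × ℕ)),
    (∀ t ∈ T, t.1.length = J ∧ Sd t.1 ∧ t.2 < J) →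
    (T.Pairwise fun s t => Priv s.1 s.2 t.1 ∧ Priv t.1 t.2 s.1 ∧ colS c B s.1 t.1 = true) →
    (∀ t ∈ T, ∀ w ∈ F t, w.length = B + J - t.2 ∧ Sd w ∧ ∀ a ∈ w, 1 + a < N) →
    (∀ t ∈ T, ∀ w ∈ F t, ∀ w' ∈ F t, w ≠ w' → col c (B + J - t.2) w w' = true) →
    ∃ K : Finset (List ℕ), K.card = (T.map (fun t => (F t).card)).sum ∧
      (∀ x ∈ K, ∃ t ∈ T, ∃ w ∈ F t, x = rl N t.2 t.1 w) ∧
      ∀ x ∈ K, ∀ y ∈ K, x ≠ y → col c (B + J) x y = true := by
  intro T
  induction T with
  | nil =>
    intro _ _ _ _
    exact ⟨∅, by simp, by simp, by simp⟩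
  | cons t T ih =>
    intro h1 h2 h3 h4
    obtain ⟨K, hK, hKx, hKc⟩ := ih (fun s hs => h1 s (by simp [hs])) (List.pairwise_cons.1 h2).2
      (fun s hs => h3 s (by simp [hs])) (fun s hs => h4 s (by simp [hs]))
    obtain ⟨t1, t2, t3⟩ := h1 t (by simp)
    have hinj : Set.InjOn (fun w => rl N t.2 t.1 w) (F t : Set (List ℕ)) := by
      intro w _ w' _ h
      simp only [rl] at h
      have h' := List.append_cancel_left h
      exact List.map_injective_iff.2 (fun a b hab => by
        have hab' : N * t.1.getD t.2 0 + 1 + a = N * t.1.getD t.2 0 + 1 + b := hab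
        omega) h'
    have cross : ∀ s ∈ T, ∀ w ∈ F t, ∀ w' ∈ F s,
        rl N t.2 t.1 w ≠ rl N s.2 s.1 w' ∧
        col c (B + J) (rl N t.2 t.1 w) (rl N s.2 s.1 w') = true := by
      intro s hsT w hw w' hw'
      obtain ⟨s1, s2, s3⟩ := h1 s (by simp [hsT])
      obtain ⟨p1, p2, p3⟩ := (List.pairwise_cons.1 h2).1 s hsT
      obtain ⟨w1, w2, w3⟩ := h3 t (by simp) w hw
      obtain ⟨w1', w2', w3'⟩ := h3 s (by simp [hsT]) w' hw'
      have hOE := rl_OE (B := B) (M := B + 2) t1 s1 t2 s2 t3 s3 w1 w1' w3 w3' hN (by omega) p1 p2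
      constructor
      · intro heq
        have hi : t.2 < (rl N t.2 t.1 w).length := by
          rw [rl_length (by omega), w1]; omega
        have hi' : t.2 < (rl N s.2 s.1 w').length := by rw [← heq]; exact hi
        have e1 := rl_getElem (N := N) (w := w) (t1 ▸ t3) hi
        have e2 := rl_getElem (N := N) (w := w') (s1 ▸ s3) hi'
        have e3 : (rl N t.2 t.1 w)[t.2] = (rl N s.2 s.1 w')[t.2] := by simp only [heq]
        rw [e1, e2, min_self, if_neg (lt_irrefl _)] at e3
        have q1 := p1 _ (getD_mem' (show min t.2 s.2 < s.1.length by omega))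
        have q2 := getD_le_of_sd t2 (show t.2 ≤ t.1.length - 1 by omega) (by omega)
        have o1 : 1 + w.getD (t.2 - t.2) 0 < N := w3 _ (getD_mem' (by omega))
        have o2 : (if t.2 < s.2 then 0 else 1 + w'.getD (t.2 - s.2) 0) < N := by
          split_ifs
          · exact hN
          · exact w3' _ (getD_mem' (by omega))
        rcases q1 with q1 | q1
        · have := (mul_add_lt_iff o2 o1).2 (Or.inl q1)
          omega
        · have := (mul_add_lt_iff o1 o2).2 (Or.inl (lt_of_le_of_lt q2 q1))
          omega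
      · have hst : ∀ (e : List ℕ), e.length = J →
            st B e = rl (B + 2) (J - 1) e (List.range (B + 1)) := by
          intro e he; unfold st; rw [he]
        rw [← p3]
        unfold colS
        rw [t1, hst _ t1, hst _ s1]
        exact col_congr hc hn (by rw [rl_length (by omega), w1]; omega)
          (by rw [rl_length (by omega), w1']; omega) (rl_sd (t1 ▸ t3) t2 w2 hN)
          (rl_sd (s1 ▸ s3) s2 w2' hN) (rl_sd (by omega) t2 (Sd.range _) (by omega))
          (rl_sd (by omega) s2 (Sd.range _) (by omega)) hOE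
    refine ⟨(F t).image (fun w => rl N t.2 t.1 w) ∪ K, ?_, ?_, ?_⟩
    · rw [Finset.card_union_of_disjoint, Finset.card_image_of_injOn hinj, hK]
      · simp
      · rw [Finset.disjoint_left]
        intro x hx hx'
        obtain ⟨w, hw, rfl⟩ := Finset.mem_image.1 hx
        obtain ⟨s, hsT, w', hw', h⟩ := hKx _ hx'
        exact (cross s hsT w hw w' hw').1 h
    · intro x hx
      rcases Finset.mem_union.1 hx with hx | hx
      · obtain ⟨w, hw, rfl⟩ := Finset.mem_image.1 hx
        exact ⟨t, by simp, w, hw, rfl⟩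
      · obtain ⟨s, hsT, w', hw', h⟩ := hKx _ hx
        exact ⟨s, by simp [hsT], w', hw', h⟩
    · intro x hx y hy hxy
      rcases Finset.mem_union.1 hx with hx | hx <;> rcases Finset.mem_union.1 hy with hy | hy
      · obtain ⟨w, hw, rfl⟩ := Finset.mem_image.1 hx
        obtain ⟨w', hw', rfl⟩ := Finset.mem_image.1 hy
        have q1 := h3 t (by simp) w hw
        have q2 := h3 t (by simp) w' hw'
        show col c (B + J) (rl N t.2 t.1 w) (rl N t.2 t.1 w') = true
        rw [col_same hc hn t1 t2 t3 q1.1 q2.1 q1.2.1 q2.2.1 hN]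
        exact h4 t (by simp) w hw w' hw' (fun h => hxy (by rw [h]))
      · obtain ⟨w, hw, rfl⟩ := Finset.mem_image.1 hx
        obtain ⟨s, hsT, w', hw', rfl⟩ := hKx _ hy
        exact (cross s hsT w hw w' hw').2
      · obtain ⟨w, hw, rfl⟩ := Finset.mem_image.1 hy
        obtain ⟨s, hsT, w', hw', rfl⟩ := hKx _ hx
        rw [col_symm hs]
        exact (cross s hsT w hw w' hw').2
      · exact hKc x hx y hy hxy

theorem realize (hc : Inv c) (hs : ∀ x y, c x y = c y x) {B J : ℕ} (hn : B + J ≤ n)
    (T : List (List ℕ × ℕ)) (h1 : ∀ t ∈ T, t.1.length = J ∧ Sd t.1 ∧ t.2 < J)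
    (h2 : T.Pairwise fun s t => Priv s.1 s.2 t.1 ∧ Priv t.1 t.2 s.1 ∧ colS c B s.1 t.1 = true)
    (m : ℕ → ℕ) (hm : ∀ t ∈ T, HasClique c (B + J - t.2) (m t.2)) :
    HasClique c (B + J) (T.map (fun t => m t.2)).sum := by
  classical
  have hex : ∀ t : List ℕ × ℕ, ∃ K : Finset (List ℕ), t ∈ T → K.card = m t.2 ∧
      (∀ x ∈ K, x.length = B + J - t.2 ∧ Sd x) ∧
      ∀ x ∈ K, ∀ y ∈ K, x ≠ y → col c (B + J - t.2) x y = true := by
    intro t
    by_cases ht : t ∈ T
    · obtain ⟨K, hK⟩ := hm t ht
      exact ⟨K, fun _ => hK⟩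
    · exact ⟨∅, fun h => absurd h ht⟩
  choose F hF using hex
  let N := (T.toFinset.sup fun t => (F t).sup fun w => w.toFinset.sup id) + 2
  have hN : ∀ t ∈ T, ∀ w ∈ F t, ∀ a ∈ w, 1 + a < N := by
    intro t ht w hw a ha
    have q1 : a ≤ w.toFinset.sup id :=
      Finset.le_sup (f := id) (List.mem_toFinset.2 ha)
    have q2 : w.toFinset.sup id ≤ (F t).sup fun w => w.toFinset.sup id :=
      Finset.le_sup (f := fun w : List ℕ => w.toFinset.sup id) hw
    have q3 : ((F t).sup fun w => w.toFinset.sup id) ≤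
        T.toFinset.sup fun t => (F t).sup fun w => w.toFinset.sup id :=
      Finset.le_sup (f := fun t => (F t).sup fun w : List ℕ => w.toFinset.sup id)
        (List.mem_toFinset.2 ht)
    show 1 + a < (T.toFinset.sup fun t => (F t).sup fun w => w.toFinset.sup id) + 2
    omega
  obtain ⟨K, hK, hKx, hKc⟩ := realize_aux hc hs hn (N := N) (Nat.succ_pos _) F T h1 h2
    (fun t ht w hw => ⟨((hF t ht).2.1 w hw).1, ((hF t ht).2.1 w hw).2, hN t ht w hw⟩)
    (fun t ht => (hF t ht).2.2)
  refine ⟨K, ?_, ?_, hKc⟩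
  · rw [hK]
    congr 1
    apply List.map_congr_left
    intro t ht
    exact (hF t ht).1
  · intro x hx
    obtain ⟨t, ht, w, hw, rfl⟩ := hKx x hx
    obtain ⟨t1, t2, t3⟩ := h1 t ht
    have q := (hF t ht).2.1 w hw
    exact ⟨by rw [rl_length (by omega), q.1]; omega, rl_sd (t1 ▸ t3) t2 q.2 (Nat.succ_pos _)⟩

end Pool.Agent.Helper18.EH
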