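import Pool.Agent.Helper18.EH.Lower

/-!
The partition relation for tuples, and supermultiplicativity.
-/

namespace Pool.Agent.Helper18.EH

open Ordinal

/-- The alternative for tuples: a lexicographic embedding of `ω ^ k` with all pairs of colour
`false`, or `m` tuples with all pairs of colour `true`. -/
def AltN (k : ℕ) {n : ℕ} (c : (Fin n → ℕ) → (Fin n → ℕ) → Bool) (m : ℕ) : Prop :=
  (∃ φ : (Fin k → ℕ) → (Fin n → ℕ),
      (∀ u v, toLex u < toLex v → toLex (φ u) < toLex (φ v)) ∧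
      ∀ u v, u ≠ v → c (φ u) (φ v) = false) ∨
    (∃ K : Finset (Fin n → ℕ), K.card = m ∧ ∀ x ∈ K, ∀ y ∈ K, x ≠ y → c x y = true)

theorem Arrow.alt {n k m : ℕ} (h : Arrow (ω ^ n) (ω ^ k) m)
    (c : (Fin n → ℕ) → (Fin n → ℕ) → Bool) (hs : ∀ x y, c x y = c y x) : AltN k c m := by
  rcases h (fun a b => c (ofLex (lexIso n a)) (ofLex (lexIso n b))) (fun _ _ => hs _ _) with
    ⟨H, hH, hc⟩ | ⟨H, hH, hc⟩
  · left
    obtain ⟨e⟩ := Ordinal.type_eq.1 ((Ordinal.type_toType ((ω : Ordinal.{0}) ^ k)).trans hH.symm)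
    let f : (Fin k → ℕ) → H := fun u => e ((lexIso k).symm (toLex u))
    have hf : ∀ u v, toLex u < toLex v → f u < f v := fun u v h =>
      e.map_rel_iff.2 ((lexIso k).symm.lt_iff_lt.2 h)
    refine ⟨fun u => ofLex (lexIso n (f u).1), fun u v h => ?_, fun u v h => ?_⟩
    · exact (lexIso n).lt_iff_lt.2 (hf u v h)
    · apply hc _ (f u).2 _ (f v).2
      intro hcon
      apply h
      have h1 : f u = f v := Subtype.ext hcon
      rcases lt_trichotomy (toLex u) (toLex v) with h2 | h2 | h2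
      · exact absurd h1 (hf _ _ h2).ne
      · exact toLex.injective h2
      · exact absurd h1.symm (hf _ _ h2).ne
  · right
    refine ⟨H.image (fun a => ofLex (lexIso n a)), ?_, ?_⟩
    · rw [← hH]
      exact Finset.card_image_of_injective _ (ofLex.injective.comp (lexIso n).injective)
    · intro x hx y hy hxy
      obtain ⟨a, ha, rfl⟩ := Finset.mem_image.1 hx
      obtain ⟨b, hb, rfl⟩ := Finset.mem_image.1 hy
      exact hc a ha b hb (fun h => hxy (by rw [h]))

theorem arrow_of_alt {n k m : ℕ} (h : ∀ c : (Fin n → ℕ) → (Fin n → ℕ) → Bool, Inv c →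
    (∀ x y, c x y = c y x) → AltN k c m) : Arrow (ω ^ n) (ω ^ k) m := by
  intro C hC
  let ψ : (Fin n → ℕ) → ((ω : Ordinal.{0}) ^ n).ToType := fun x => (lexIso n).symm (toLex x)
  have hψ : ∀ x y, toLex x < toLex y → ψ x < ψ y := fun x y h => (lexIso n).symm.lt_iff_lt.2 h
  have hψi : Function.Injective ψ := fun x y h => toLex.injective ((lexIso n).symm.injective h)
  obtain ⟨g, hg, hgc⟩ := canon (D := Fin n ⊕ Fin n)
    (fun e => C (ψ (fun i => e (Sum.inl i))) (ψ (fun i => e (Sum.inr i))))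
  have hgl : ∀ x y : Fin n → ℕ, toLex x < toLex y → toLex (g ∘ x) < toLex (g ∘ y) := by
    rintro x y ⟨i, hi, hi'⟩
    exact ⟨i, fun j hj => congrArg g (hi j hj), hg hi'⟩
  have hgi : Function.Injective (fun x : Fin n → ℕ => g ∘ x) := fun x y h =>
    funext fun i => hg.injective (congrFun h i)
  rcases h (fun x y => C (ψ (g ∘ x)) (ψ (g ∘ y)))
    (fun x y x' y' h => hgc (Sum.elim x y) (Sum.elim x' y') h) (fun x y => hC _ _) with
    ⟨φ, h1, h2⟩ | ⟨K, hK, hKc⟩
  · left
    let f : ((ω : Ordinal.{0}) ^ k).ToType → ((ω : Ordinal.{0}) ^ n).ToType :=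
      fun z => ψ (g ∘ φ (ofLex (lexIso k z)))
    have hf : StrictMono f := by
      intro a b hab
      exact hψ _ _ (hgl _ _ (h1 _ _ ((lexIso k).lt_iff_lt.2 hab)))
    refine ⟨Set.range f, ?_, ?_⟩
    · rw [← (hf.orderIso f).toRelIsoLT.ordinalType_congr]
      exact Ordinal.type_toType _
    · rintro _ ⟨a, rfl⟩ _ ⟨b, rfl⟩ hab
      apply h2
      intro h
      apply hab
      have : a = b := (lexIso k).injective (ofLex.injective h)
      rw [this]
  · right
    refine ⟨K.image (fun x => ψ (g ∘ x)), ?_, ?_⟩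
    · rw [← hK]
      exact Finset.card_image_of_injective K
        (show Function.Injective (fun x => ψ (g ∘ x)) from fun x y h => hgi (hψi h))
    · intro x hx y hy hxy
      obtain ⟨a, ha, rfl⟩ := Finset.mem_image.1 hx
      obtain ⟨b, hb, rfl⟩ := Finset.mem_image.1 hy
      exact hKc a ha b hb (fun h => hxy (by rw [h]))

/-- Codes of the initial parts of a tuple. -/
def codeF {b : ℕ} (w : Fin b → ℕ) : Fin b → ℕ := fun t => code (ext w) t

theorem codeF_strictMono {b : ℕ} (w : Fin b → ℕ) : StrictMono (codeF w) :=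
  fun _ _ h => code_strictMono _ (Fin.lt_def.1 h)

theorem codeF_lex {b : ℕ} {u v : Fin b → ℕ} (h : toLex u < toLex v) :
    toLex (codeF u) < toLex (codeF v) := by
  obtain ⟨i, hi, hi'⟩ := h
  simp only [Pi.toLex_apply] at hi hi'
  have hext : ∀ j : ℕ, j < (i : ℕ) → ext u j = ext v j := by
    intro j hj
    have hjk : j < b := hj.trans i.2
    have := hi ⟨j, hjk⟩ hj
    simpa [ext, hjk] using this
  have hlt : ext u i < ext v i := by
    rw [ext_apply, ext_apply]; exact hi'
  refine ⟨i, fun j hj => ?_, ?_⟩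
  · simp only [Pi.toLex_apply, codeF]
    exact code_congr (fun t ht => hext t (lt_of_le_of_lt ht (Fin.lt_def.1 hj)))
  · simp only [Pi.toLex_apply, codeF]
    exact code_lt hext hlt

theorem codeF_injective (b : ℕ) : Function.Injective (codeF (b := b)) := by
  intro u v h
  funext i
  have := code_inj (congrFun h i) i le_rfl
  rwa [ext_apply, ext_apply] at this

/-- Supermultiplicativity of the partition relation. -/
theorem superMul {k j b g m : ℕ} (hA : Arrow (ω ^ (j + 1)) (ω ^ k) g)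
    (hB : Arrow (ω ^ (b + 1)) (ω ^ k) m) : Arrow (ω ^ (j + (b + 1))) (ω ^ k) (g * m) := by
  apply arrow_of_alt
  intro c hc hsym
  have hpos : 0 < b + 1 := Nat.succ_pos b
  rcases hB.alt (fun w w' => c (shf j (codeF w)) (shf j (codeF w'))) (fun _ _ => hsym _ _) with
    ⟨φ, h1, h2⟩ | ⟨K, hK, hKc⟩
  · exact Or.inl ⟨fun u => shf j (codeF (φ u)), fun u v h => shf_lex (codeF_lex (h1 u v h)), h2⟩
  rcases hA.alt (fun u v => c (blk (κ := j) (b + 1 + 1) (code (ext u)) (fun t : Fin (b + 1) => (t : ℕ)))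
        (blk (κ := j) (b + 1 + 1) (code (ext v)) (fun t : Fin (b + 1) => (t : ℕ))))
        (fun _ _ => hsym _ _) with
    ⟨φ, h1, h2⟩ | ⟨G, hG, hGc⟩
  · exact Or.inl ⟨fun u => blk (κ := j) (b + 1 + 1) (code (ext (φ u)))
        (fun t : Fin (b + 1) => (t : ℕ)), fun u v h => blk_lex hpos (Nat.succ_pos _) (h1 u v h), h2⟩
  right
  have hne : ∀ u v : Fin (j + 1) → ℕ, u ≠ v → code (ext u) j ≠ code (ext v) j := by
    intro u v huv h
    apply huv
    funext i
    have := code_inj h i (Nat.lt_succ_iff.1 i.2)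
    rwa [ext_apply, ext_apply] at this
  let K' := K.image codeF
  have hK'm : ∀ w ∈ K', StrictMono w := by
    intro w hw
    obtain ⟨w', _, rfl⟩ := Finset.mem_image.1 hw
    exact codeF_strictMono w'
  have hK'c : ∀ w ∈ K', ∀ w' ∈ K', w ≠ w' → c (shf j w) (shf j w') = true := by
    intro w hw w' hw' h
    obtain ⟨v, hv, rfl⟩ := Finset.mem_image.1 hw
    obtain ⟨v', hv', rfl⟩ := Finset.mem_image.1 hw'
    exact hKc v hv v' hv' (fun e => h (by rw [e]))
  have hK' : K'.card = m := by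
    rw [← hK]; exact Finset.card_image_of_injective K (codeF_injective _)
  let N := K'.sup (fun w => Finset.univ.sup w) + 2
  have hNpos : 0 < N := Nat.succ_pos _
  have hNw : ∀ w ∈ K', ∀ t, 1 + w t < N := by
    intro w hw t
    have h1 : w t ≤ Finset.univ.sup w := Finset.le_sup (f := w) (Finset.mem_univ t)
    have h2 : Finset.univ.sup w ≤ K'.sup (fun w => Finset.univ.sup w) :=
      Finset.le_sup (f := fun w : Fin (b + 1) → ℕ => Finset.univ.sup w) hw
    show 1 + w t < K'.sup (fun w => Finset.univ.sup w) + 2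
    omega
  let X : (Fin (j + 1) → ℕ) × (Fin (b + 1) → ℕ) → (Fin (j + (b + 1)) → ℕ) :=
    fun p => blk (κ := j) N (code (ext p.1)) p.2
  have hcross : ∀ u ∈ G, ∀ v ∈ G, u ≠ v → ∀ w ∈ K', ∀ w' ∈ K', c (X (u, w)) (X (v, w')) = true := by
    intro u hu v hv huv w hw w' hw'
    have q := hGc u hu v hv huv
    rw [← q]
    apply hc
    exact ordEq_cross (hne u v huv) hNpos (Nat.succ_pos _) (hNw w hw) (hNw w' hw')
      (fun t => by have := t.2; omega) (fun t => by have := t.2; omega) (hK'm w hw) (hK'm w' hw')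
      (fun a b h => h) (fun a b h => h)
  have hsame : ∀ u : Fin (j + 1) → ℕ, ∀ w ∈ K', ∀ w' ∈ K', w ≠ w' →
      c (X (u, w)) (X (u, w')) = true := by
    intro u w hw w' hw' hww
    rw [← hK'c w hw w' hw' hww]
    exact hc _ _ _ _ (ordEq_same hNpos (code_strictMono _))
  have hinj : ∀ p ∈ G ×ˢ K', ∀ q ∈ G ×ˢ K', X p = X q → p = q := by
    rintro ⟨u, w⟩ hp ⟨v, w'⟩ hq h
    obtain ⟨hu, hw⟩ := Finset.mem_product.1 hp
    obtain ⟨hv, hw'⟩ := Finset.mem_product.1 hq
    simp only at hu hw hv hw'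
    have huv : u = v := by
      by_contra huv
      have h0 := congrFun h (Fin.natAdd j ⟨0, hpos⟩)
      simp only [X, blk, Fin.append_right] at h0
      rcases lt_or_gt_of_ne (hne u v huv) with h' | h'
      · have := (mul_add_lt_iff (hNw w hw ⟨0, hpos⟩) (hNw w' hw' ⟨0, hpos⟩)).2 (Or.inl h')
        omega
      · have := (mul_add_lt_iff (hNw w' hw' ⟨0, hpos⟩) (hNw w hw ⟨0, hpos⟩)).2 (Or.inl h')
        omega
    subst huv
    have hww : w = w' := by
      funext t
      have := congrFun h (Fin.natAdd j t)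
      simp only [X, blk, Fin.append_right] at this
      omega
    rw [hww]
  refine ⟨(G ×ˢ K').image X, ?_, ?_⟩
  · rw [Finset.card_image_of_injOn (fun p hp q hq h => hinj p (Finset.mem_coe.1 hp) q
      (Finset.mem_coe.1 hq) h), Finset.card_product, hG, hK']
  · intro x hx y hy hxy
    obtain ⟨⟨u, w⟩, hp, rfl⟩ := Finset.mem_image.1 hx
    obtain ⟨⟨v, w'⟩, hq, rfl⟩ := Finset.mem_image.1 hy
    obtain ⟨hu, hw⟩ := Finset.mem_product.1 hp
    obtain ⟨hv, hw'⟩ := Finset.mem_product.1 hq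
    simp only at hu hw hv hw'
    by_cases huv : u = v
    · subst huv
      exact hsame u w hw w' hw' (fun h => hxy (by rw [h]))
    · exact hcross u hu v hv huv w hw w' hw'

theorem arrow_one {n k : ℕ} : Arrow (ω ^ n) (ω ^ k) 1 := by
  apply arrow_of_alt
  intro c _ _
  refine Or.inr ⟨{fun _ => 0}, by simp, ?_⟩
  intro x hx y hy hxy
  rw [Finset.mem_singleton.1 hx, Finset.mem_singleton.1 hy] at hxy
  exact absurd rfl hxy

/-- Iteration of supermultiplicativity. -/
theorem superPow {k j g : ℕ} (hA : Arrow (ω ^ (j + 1)) (ω ^ k) g) :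
    ∀ t, Arrow (ω ^ (j * t + 1)) (ω ^ k) (g ^ t)
  | 0 => by simpa using arrow_one (n := 1) (k := k)
  | t + 1 => by
    have := superMul hA (superPow hA t)
    rw [show j * (t + 1) + 1 = j + (j * t + 1) by ring, pow_succ']
    exact this

end Pool.Agent.Helper18.EH
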