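import Pool.Agent.Helper18.EH.Lower

/-!
Merge words of pairs of increasing lists.
-/

namespace Pool.Agent.Helper18.EH

/-- Strictly increasing lists. -/
abbrev Sd (l : List ℕ) : Prop := l.Pairwise (· < ·)

/-- Two pairs of lists have the same cross comparisons. -/
def OE (e f e' f' : List ℕ) : Prop :=
  e.length = e'.length ∧ f.length = f'.length ∧
    ∀ (i j : ℕ) (hi : i < e.length) (hj : j < f.length) (hi' : i < e'.length)
      (hj' : j < f'.length), (e[i] < f[j] ↔ e'[i] < f'[j]) ∧ (f[j] < e[i] ↔ f'[j] < e'[i])

theorem OE.symm {e f e' f' : List ℕ} (h : OE e f e' f') : OE e' f' e f :=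
  ⟨h.1.symm, h.2.1.symm, fun i j hi hj hi' hj' =>
    ⟨(h.2.2 i j hi' hj' hi hj).1.symm, (h.2.2 i j hi' hj' hi hj).2.symm⟩⟩

theorem OE.trans {e f e' f' e'' f'' : List ℕ} (h : OE e f e' f') (h' : OE e' f' e'' f'') :
    OE e f e'' f'' :=
  ⟨h.1.trans h'.1, h.2.1.trans h'.2.1, fun i j hi hj hi' hj' =>
    ⟨(h.2.2 i j hi hj (h.1 ▸ hi) (h.2.1 ▸ hj)).1.trans
      (h'.2.2 i j (h.1 ▸ hi) (h.2.1 ▸ hj) hi' hj').1,
     (h.2.2 i j hi hj (h.1 ▸ hi) (h.2.1 ▸ hj)).2.trans
      (h'.2.2 i j (h.1 ▸ hi) (h.2.1 ▸ hj) hi' hj').2⟩⟩

theorem OE.swap {e f e' f' : List ℕ} (h : OE e f e' f') : OE f e f' e' :=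
  ⟨h.2.1, h.1, fun i j hi hj hi' hj' =>
    ⟨(h.2.2 j i hj hi hj' hi').2, (h.2.2 j i hj hi hj' hi').1⟩⟩

/-- Merge word with bounded recursion depth. -/
def mgF : ℕ → List ℕ → List ℕ → List ℕ
  | 0, _, _ => []
  | _ + 1, [], [] => []
  | n + 1, _ :: e, [] => 0 :: mgF n e []
  | n + 1, [], _ :: f => 1 :: mgF n [] f
  | n + 1, a :: e, b :: f =>
    bif Nat.blt a b then 0 :: mgF n e (b :: f)
    else bif Nat.blt b a then 1 :: mgF n (a :: e) f
    else 2 :: mgF n e f

/-- The merge word of two lists. -/
def mg (e f : List ℕ) : List ℕ := mgF (e.length + f.length) e f

theorem blt_iff {a b : ℕ} : Nat.blt a b = true ↔ a < b := by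
  simp [Nat.blt_eq]

theorem mgF_lt {n a b : ℕ} {e f : List ℕ} (h : a < b) :
    mgF (n + 1) (a :: e) (b :: f) = 0 :: mgF n e (b :: f) := by
  simp [mgF, blt_iff.2 h]

theorem mgF_gt {n a b : ℕ} {e f : List ℕ} (h : b < a) :
    mgF (n + 1) (a :: e) (b :: f) = 1 :: mgF n (a :: e) f := by
  have h1 : Nat.blt a b = false := by
    rw [← Bool.not_eq_true, blt_iff]; omega
  simp [mgF, blt_iff.2 h, h1]

theorem mgF_eq {n a : ℕ} {e f : List ℕ} :
    mgF (n + 1) (a :: e) (a :: f) = 2 :: mgF n e f := by
  have h1 : Nat.blt a a = false := by
    rw [← Bool.not_eq_true, blt_iff]; omega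
  simp [mgF, h1]

theorem mgF_OE : ∀ (n : ℕ) (e f e' f' : List ℕ), e.length + f.length ≤ n →
    e.length = e'.length → f.length = f'.length → Sd e → Sd f → Sd e' → Sd f' →
    mgF n e f = mgF n e' f' → OE e f e' f' := by
  intro n
  induction n with
  | zero =>
    intro e f e' f' hn he hf _ _ _ _ _
    refine ⟨he, hf, fun i j hi hj => ?_⟩
    omega
  | succ n ih =>
    intro e f e' f' hn he hf se sf se' sf' h
    refine ⟨he, hf, ?_⟩
    intro i j hi hj hi' hj'
    match e, e', f, f', he, hf with
    | a :: e, a' :: e', b :: f, b' :: f', he, hf =>
      have le : e.length = e'.length := by simpa using he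
      have lf : f.length = f'.length := by simpa using hf
      have hn' : e.length + f.length + 1 ≤ n := by
        simp only [List.length_cons] at hn; omega
      have hae := (List.pairwise_cons.1 se).1
      have hbf := (List.pairwise_cons.1 sf).1
      have hae' := (List.pairwise_cons.1 se').1
      have hbf' := (List.pairwise_cons.1 sf').1
      have s1 := (List.pairwise_cons.1 se).2
      have s2 := (List.pairwise_cons.1 sf).2
      have s1' := (List.pairwise_cons.1 se').2
      have s2' := (List.pairwise_cons.1 sf').2
      rcases lt_trichotomy a b with hab | hab | hab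
      · rw [mgF_lt hab] at h
        have hab' : a' < b' := by
          rcases lt_trichotomy a' b' with h' | h' | h'
          · exact h'
          · subst h'; rw [mgF_eq] at h; simp at h
          · rw [mgF_gt h'] at h; simp at h
        rw [mgF_lt hab'] at h
        have h2 := ih e (b :: f) e' (b' :: f') (by simp only [List.length_cons]; omega) le
          (by simpa using lf) s1 sf s1' sf' (by simpa using h)
        cases i with
        | zero =>
          simp only [List.getElem_cons_zero]
          have h3 : a < (b :: f)[j] := by
            cases j with
            | zero => exact hab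
            | succ j => exact hab.trans (hbf _ (by simp))
          have h4 : a' < (b' :: f')[j] := by
            cases j with
            | zero => exact hab'
            | succ j => exact hab'.trans (hbf' _ (by simp))
          constructor
          · exact ⟨fun _ => h4, fun _ => h3⟩
          · constructor <;> intro h5 <;> omega
        | succ i =>
          simp only [List.getElem_cons_succ]
          exact h2.2.2 i j (by simpa using hi) hj (by simpa using hi') hj'
      · subst hab
        rw [mgF_eq] at h
        have hab' : a' = b' := by
          rcases lt_trichotomy a' b' with h' | h' | h'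
          · rw [mgF_lt h'] at h; simp at h
          · exact h'
          · rw [mgF_gt h'] at h; simp at h
        subst hab'
        rw [mgF_eq] at h
        have h2 := ih e f e' f' (by omega) le lf s1 s2 s1' s2' (by simpa using h)
        cases i with
        | zero =>
          cases j with
          | zero => simp
          | succ j =>
            have hj2 : j < f.length := by simpa using hj
            have hj2' : j < f'.length := by simpa using hj'
            simp only [List.getElem_cons_zero, List.getElem_cons_succ]
            have h3 : a < f[j] := hbf _ (by simp)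
            have h4 : a' < f'[j] := hbf' _ (by simp)
            constructor
            · exact ⟨fun _ => h4, fun _ => h3⟩
            · constructor <;> intro h5 <;> omega
        | succ i =>
          cases j with
          | zero =>
            have hi2 : i < e.length := by simpa using hi
            have hi2' : i < e'.length := by simpa using hi'
            simp only [List.getElem_cons_zero, List.getElem_cons_succ]
            have h3 : a < e[i] := hae _ (by simp)
            have h4 : a' < e'[i] := hae' _ (by simp)
            constructor
            · constructor <;> intro h5 <;> omega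
            · exact ⟨fun _ => h4, fun _ => h3⟩
          | succ j =>
            simp only [List.getElem_cons_succ]
            exact h2.2.2 i j (by simpa using hi) (by simpa using hj) (by simpa using hi')
              (by simpa using hj')
      · rw [mgF_gt hab] at h
        have hab' : b' < a' := by
          rcases lt_trichotomy a' b' with h' | h' | h'
          · rw [mgF_lt h'] at h; simp at h
          · subst h'; rw [mgF_eq] at h; simp at h
          · exact h'
        rw [mgF_gt hab'] at h
        have h2 := ih (a :: e) f (a' :: e') f' (by simp only [List.length_cons]; omega)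
          (by simpa using le) lf se s2 se' s2' (by simpa using h)
        cases j with
        | zero =>
          simp only [List.getElem_cons_zero]
          have h3 : b < (a :: e)[i] := by
            cases i with
            | zero => exact hab
            | succ i => exact hab.trans (hae _ (by simp))
          have h4 : b' < (a' :: e')[i] := by
            cases i with
            | zero => exact hab'
            | succ i => exact hab'.trans (hae' _ (by simp))
          constructor
          · constructor <;> intro h5 <;> omega
          · exact ⟨fun _ => h4, fun _ => h3⟩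
        | succ j =>
          simp only [List.getElem_cons_succ]
          exact h2.2.2 i j hi (by simpa using hj) hi' (by simpa using hj')
    | [], _, _, _, _, _ => simp at hi
    | _ :: _, [], _, _, he, _ => simp at he
    | _ :: _, _ :: _, [], _, _, _ => simp at hj
    | _ :: _, _ :: _, _ :: _, [], _, hf => simp at hf

theorem mg_OE {e f e' f' : List ℕ} (he : e.length = e'.length) (hf : f.length = f'.length)
    (se : Sd e) (sf : Sd f) (se' : Sd e') (sf' : Sd f') (h : mg e f = mg e' f') :
    OE e f e' f' := by
  apply mgF_OE _ e f e' f' le_rfl he hf se sf se' sf'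
  unfold mg at h
  rw [he, hf] at h ⊢
  exact h

/-- Auxiliary function for `interl`. -/
def intA (g : ℕ → List (List ℕ)) : ℕ → List (List ℕ)
  | 0 => (g 0).map (0 :: ·)
  | q + 1 => (g (q + 1)).map (0 :: ·) ++ (intA g q).map (1 :: ·)

/-- All words with `p` zeros and `q` ones. -/
def interl : ℕ → ℕ → List (List ℕ)
  | 0 => fun q => [List.replicate q 1]
  | p + 1 => intA (interl p)

theorem mgF_nil_left : ∀ (n : ℕ) (f : List ℕ), f.length ≤ n →
    mgF n [] f = List.replicate f.length 1 := by
  intro n
  induction n with
  | zero => intro f hf; rw [List.length_eq_zero_iff.1 (Nat.le_zero.1 hf)]; rfl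
  | succ n ih =>
    intro f hf
    cases f with
    | nil => rfl
    | cons b f =>
      simp only [mgF, List.length_cons, List.replicate_succ]
      rw [ih f (by simpa using hf)]

theorem mgF_nil_right : ∀ (n : ℕ) (e : List ℕ), e.length ≤ n →
    mgF n e [] = List.replicate e.length 0 := by
  intro n
  induction n with
  | zero => intro f hf; rw [List.length_eq_zero_iff.1 (Nat.le_zero.1 hf)]; rfl
  | succ n ih =>
    intro f hf
    cases f with
    | nil => rfl
    | cons b f =>
      simp only [mgF, List.length_cons, List.replicate_succ]
      rw [ih f (by simpa using hf)]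

theorem mgF_interl : ∀ (n : ℕ) (e f : List ℕ), e.length + f.length ≤ n →
    (∀ a ∈ e, ∀ b ∈ f, a ≠ b) → mgF n e f ∈ interl e.length f.length := by
  intro n
  induction n with
  | zero =>
    intro e f h _
    rw [List.length_eq_zero_iff.1 (show e.length = 0 by omega),
      List.length_eq_zero_iff.1 (show f.length = 0 by omega)]
    simp [mgF, interl]
  | succ n ih =>
    intro e f h hd
    match e, f with
    | [], f =>
      rw [mgF_nil_left _ _ (by simpa using h)]
      simp [interl]
    | a :: e, [] =>
      have h1 := ih e [] (by simpa using h) (by simp)
      simp only [mgF, List.length_cons, interl, List.length_nil, intA]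
      exact List.mem_map_of_mem h1
    | a :: e, b :: f =>
      have hab : a ≠ b := hd a (by simp) b (by simp)
      simp only [List.length_cons] at h ⊢
      simp only [interl, intA, List.mem_append, List.mem_map]
      rcases lt_or_gt_of_ne hab with hlt | hlt
      · left
        rw [mgF_lt hlt]
        refine ⟨_, ih e (b :: f) (by simp only [List.length_cons]; omega)
          (fun x hx y hy => hd x (by simp [hx]) y hy), ?_⟩
        simp
      · right
        rw [mgF_gt hlt]
        refine ⟨_, ih (a :: e) f (by simp only [List.length_cons]; omega)
          (fun x hx y hy => hd x hx y (by simp [hy])), ?_⟩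
        simp

theorem mg_interl {e f : List ℕ} (h : ∀ a ∈ e, ∀ b ∈ f, a ≠ b) :
    mg e f ∈ interl e.length f.length :=
  mgF_interl _ e f le_rfl h

/-- A numerical code for words with letters less than `4`. -/
def wcode : List ℕ → ℕ
  | [] => 1
  | d :: l => 4 * wcode l + d

theorem wcode_pos (l : List ℕ) : 0 < wcode l := by
  cases l with
  | nil => exact Nat.one_pos
  | cons d l => simp only [wcode]; have := wcode_pos l; omega

theorem wcode_inj : ∀ {l l' : List ℕ}, (∀ d ∈ l, d < 3) → (∀ d ∈ l', d < 3) →
    wcode l = wcode l' → l = l' := by
  intro l
  induction l with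
  | nil =>
    intro l' _ hl' h
    cases l' with
    | nil => rfl
    | cons d l' =>
      exfalso
      simp only [wcode] at h
      have := wcode_pos l'
      omega
  | cons d l ih =>
    intro l' hl hl' h
    cases l' with
    | nil =>
      exfalso
      simp only [wcode] at h
      have := wcode_pos l
      omega
    | cons d' l' =>
      simp only [wcode] at h
      have h1 := hl d (by simp)
      have h2 := hl' d' (by simp)
      have h3 : wcode l = wcode l' := by omega
      have h4 : d = d' := by omega
      rw [h4, ih (fun x hx => hl x (by simp [hx])) (fun x hx => hl' x (by simp [hx])) h3]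

theorem mgF_lt_three : ∀ (n : ℕ) (e f : List ℕ), ∀ d ∈ mgF n e f, d < 3 := by
  intro n
  induction n with
  | zero => intro e f d hd; simp [mgF] at hd
  | succ n ih =>
    intro e f d hd
    match e, f with
    | [], [] => simp [mgF] at hd
    | a :: e, [] =>
      simp only [mgF, List.mem_cons] at hd
      rcases hd with rfl | hd
      · omega
      · exact ih _ _ _ hd
    | [], b :: f =>
      simp only [mgF, List.mem_cons] at hd
      rcases hd with rfl | hd
      · omega
      · exact ih _ _ _ hd
    | a :: e, b :: f =>
      rcases lt_trichotomy a b with h | h | h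
      · rw [mgF_lt h] at hd
        rcases List.mem_cons.1 hd with rfl | hd
        · omega
        · exact ih _ _ _ hd
      · subst h
        rw [mgF_eq] at hd
        rcases List.mem_cons.1 hd with rfl | hd
        · omega
        · exact ih _ _ _ hd
      · rw [mgF_gt h] at hd
        rcases List.mem_cons.1 hd with rfl | hd
        · omega
        · exact ih _ _ _ hd

/-- The code of the merge word. -/
def mc (e f : List ℕ) : ℕ := wcode (mg e f)

theorem mc_OE {e f e' f' : List ℕ} (he : e.length = e'.length) (hf : f.length = f'.length)
    (se : Sd e) (sf : Sd f) (se' : Sd e') (sf' : Sd f') (h : mc e f = mc e' f') :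
    OE e f e' f' :=
  mg_OE he hf se sf se' sf' (wcode_inj (mgF_lt_three _ _ _) (mgF_lt_three _ _ _) h)

end Pool.Agent.Helper18.EH
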